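import Pool.Agent.Helper78.OrbitPolytope.Group

/-!
# The family of label sets of facets, and the analysis at the base point
-/

open Set
open scoped InnerProductSpace

namespace Pool.Agent.Helper78.OrbitPolytope

/-- Representatives of the label sets of the facets. -/
def repF : Fin 4 → Finset (Fin 16) :=
  ![{0, 2, 4, 6, 8, 10, 12, 14}, {0, 1, 2, 8, 9, 10}, {0, 1, 2, 12, 13, 14}, {0, 1, 2, 10, 11, 12}]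

/-- A set of labels is (the label set of) a facet. -/
def IsFac (S : Finset (Fin 16)) : Prop := ∃ g : Fin 16, ∃ i : Fin 4, (repF i).image (mulT g) = S

instance (S : Finset (Fin 16)) : Decidable (IsFac S) := by
  unfold IsFac
  infer_instance

/-- The family of the label sets of the facets. -/
def Fam : Set (Set (Fin 16)) := {S | ∃ F : Finset (Fin 16), IsFac F ∧ (F : Set (Fin 16)) = S}

/-- Labels of the first kind. -/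
def emA (k : Fin 8) : Fin 16 := ⟨k.1, by omega⟩

/-- Labels of the second kind. -/
def emB (k : Fin 8) : Fin 16 := ⟨k.1 + 8, by omega⟩

/-- The facets with six vertices. -/
def Sset (a b : Fin 8) : Finset (Fin 16) :=
  {emA (a - 1), emA a, emA (a + 1), emB (b - 1), emB b, emB (b + 1)}

/-- Witnesses. -/
def wg : Fin 8 → Fin 8 → Fin 16 :=
  ![![1, 0, 1, 0, 1, 0, 15, 0],
    ![0, 0, 0, 0, 0, 0, 0, 14],
    ![9, 0, 3, 0, 3, 0, 3, 0],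
    ![0, 8, 0, 2, 0, 2, 0, 2],
    ![5, 0, 11, 0, 5, 0, 5, 0],
    ![0, 4, 0, 10, 0, 4, 0, 4],
    ![7, 0, 7, 0, 13, 0, 7, 0],
    ![0, 6, 0, 6, 0, 12, 0, 6]]

/-- Witnesses. -/
def wr : Fin 8 → Fin 8 → Fin 4 :=
  ![![2, 0, 3, 0, 1, 0, 3, 0],
    ![0, 1, 0, 3, 0, 2, 0, 3],
    ![3, 0, 2, 0, 3, 0, 1, 0],
    ![0, 3, 0, 1, 0, 3, 0, 2],
    ![1, 0, 3, 0, 2, 0, 3, 0],
    ![0, 2, 0, 3, 0, 1, 0, 3],
    ![3, 0, 1, 0, 3, 0, 2, 0],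
    ![0, 3, 0, 2, 0, 3, 0, 1]]

lemma image_wit : ∀ a b : Fin 8, a.1 % 2 = b.1 % 2 →
    (repF (wr a b)).image (mulT (wg a b)) = Sset a b := by
  decide +kernel

lemma isFac_Sset (a b : Fin 8) (h : a.1 % 2 = b.1 % 2) : IsFac (Sset a b) :=
  ⟨wg a b, wr a b, image_wit a b h⟩

lemma isFac_even : IsFac {0, 2, 4, 6, 8, 10, 12, 14} := by decide +kernel

lemma isFac_odd : IsFac {1, 3, 5, 7, 9, 11, 13, 15} := by decide +kernel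

lemma card_image : ∀ g : Fin 16, ∀ i : Fin 4, ((repF i).image (mulT g)).card = 6 ∨
    ((repF i).image (mulT g)).card = 8 := by decide +kernel

lemma card_isFac {S : Finset (Fin 16)} (h : IsFac S) : S.card = 6 ∨ S.card = 8 := by
  obtain ⟨g, i, rfl⟩ := h
  exact card_image g i

lemma em_cases : ∀ i : Fin 16, (∃ k, i = emA k) ∨ ∃ k, i = emB k := by decide +kernel

/-- The values in a plane. -/
def Fpl (a b : ℝ) : Fin 8 → ℝ := ![a, a + b, b, b - a, -a, -a - b, -b, a - b]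

/-- The bounds in a plane. -/
def Bpl (M N : ℝ) : Fin 8 → ℝ := ![M, N, M, N, M, N, M, N]

lemma plane_odd {a b M N : ℝ} (hM : 0 < M) (ha : a ≤ M) (ha' : -a ≤ M) (hb : b ≤ M) (hb' : -b ≤ M)
    (hN : M < N) : ∃ m : Fin 8, m.1 % 2 = 1 ∧
      ∀ k, k ≠ m - 1 → k ≠ m → k ≠ m + 1 → Fpl a b k < Bpl M N k := by
  rcases le_total 0 a with h1 | h1 <;> rcases le_total 0 b with h2 | h2
  · refine ⟨1, rfl, fun k h3 h4 h5 => ?_⟩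
    fin_cases k <;> simp [Fpl, Bpl] at h3 h4 h5 ⊢ <;> linarith
  · refine ⟨7, rfl, fun k h3 h4 h5 => ?_⟩
    fin_cases k <;> simp [Fpl, Bpl] at h3 h4 h5 ⊢ <;> linarith
  · refine ⟨3, rfl, fun k h3 h4 h5 => ?_⟩
    fin_cases k <;> simp [Fpl, Bpl] at h3 h4 h5 ⊢ <;> linarith
  · refine ⟨5, rfl, fun k h3 h4 h5 => ?_⟩
    fin_cases k <;> simp [Fpl, Bpl] at h3 h4 h5 ⊢ <;> linarith

lemma plane_even {a b M N : ℝ} (hM : 0 < M) (hN0 : 0 < N) (hN : N ≤ M) (h1 : a + b ≤ N)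
    (h2 : b - a ≤ N) (h3 : -a - b ≤ N) (h4 : a - b ≤ N) : ∃ m : Fin 8, m.1 % 2 = 0 ∧
      ∀ k, k ≠ m - 1 → k ≠ m → k ≠ m + 1 → Fpl a b k < Bpl M N k := by
  rcases le_total b a with h5 | h5 <;> rcases le_total (-b) a with h6 | h6
  · refine ⟨0, rfl, fun k h7 h8 h9 => ?_⟩
    fin_cases k <;> simp [Fpl, Bpl] at h7 h8 h9 ⊢ <;> first | linarith | exact absurd (by decide) h7
  · refine ⟨6, rfl, fun k h7 h8 h9 => ?_⟩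
    fin_cases k <;> simp [Fpl, Bpl] at h7 h8 h9 ⊢ <;> linarith
  · refine ⟨2, rfl, fun k h7 h8 h9 => ?_⟩
    fin_cases k <;> simp [Fpl, Bpl] at h7 h8 h9 ⊢ <;> linarith
  · refine ⟨4, rfl, fun k h7 h8 h9 => ?_⟩
    fin_cases k <;> simp [Fpl, Bpl] at h7 h8 h9 ⊢ <;> linarith

/-- The values of a functional on the points of the orbit. -/
def val (x v : Fin 5 → ℝ) (i : Fin 16) : ℝ := ∑ c, (sgn i c : ℝ) * x (perm i c) * v c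

lemma inner_orb (w v : E5) (i : Fin 16) : ⟪v, orb w i⟫_ℝ = val w v i := by
  rw [PiLp.inner_apply]
  unfold val
  refine Finset.sum_congr rfl fun c _ => ?_
  simp [orb, pt_apply]

lemma val_0 (x v : Fin 5 → ℝ) : val x v 0 =
    x 0 * v 0 + x 1 * v 1 + x 2 * v 2 + x 3 * v 3 + x 4 * v 4 := by
  rw [val, Fin.sum_univ_five]
  change (((1 : ℤ) : ℝ)) * x 0 * v 0 + (((1 : ℤ) : ℝ)) * x 1 * v 1 + (((1 : ℤ) : ℝ)) * x 2 * v 2 + (((1 : ℤ) : ℝ)) * x 3 * v 3 + (((1 : ℤ) : ℝ)) * x 4 * v 4 = _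
  push_cast
  ring

lemma val_1 (x v : Fin 5 → ℝ) : val x v 1 =
    x 2 * v 0 + x 3 * v 1 + x 0 * v 2 + x 1 * v 3 - x 4 * v 4 := by
  rw [val, Fin.sum_univ_five]
  change (((1 : ℤ) : ℝ)) * x 2 * v 0 + (((1 : ℤ) : ℝ)) * x 3 * v 1 + (((1 : ℤ) : ℝ)) * x 0 * v 2 + (((1 : ℤ) : ℝ)) * x 1 * v 3 + (((-1 : ℤ) : ℝ)) * x 4 * v 4 = _
  push_cast
  ring

lemma val_2 (x v : Fin 5 → ℝ) : val x v 2 =
    -x 1 * v 0 + x 0 * v 1 + x 3 * v 2 - x 2 * v 3 + x 4 * v 4 := by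
  rw [val, Fin.sum_univ_five]
  change (((-1 : ℤ) : ℝ)) * x 1 * v 0 + (((1 : ℤ) : ℝ)) * x 0 * v 1 + (((1 : ℤ) : ℝ)) * x 3 * v 2 + (((-1 : ℤ) : ℝ)) * x 2 * v 3 + (((1 : ℤ) : ℝ)) * x 4 * v 4 = _
  push_cast
  ring

lemma val_3 (x v : Fin 5 → ℝ) : val x v 3 =
    -x 3 * v 0 + x 2 * v 1 + x 1 * v 2 - x 0 * v 3 - x 4 * v 4 := by
  rw [val, Fin.sum_univ_five]
  change (((-1 : ℤ) : ℝ)) * x 3 * v 0 + (((1 : ℤ) : ℝ)) * x 2 * v 1 + (((1 : ℤ) : ℝ)) * x 1 * v 2 + (((-1 : ℤ) : ℝ)) * x 0 * v 3 + (((-1 : ℤ) : ℝ)) * x 4 * v 4 = _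
  push_cast
  ring

lemma val_4 (x v : Fin 5 → ℝ) : val x v 4 =
    -x 0 * v 0 - x 1 * v 1 - x 2 * v 2 - x 3 * v 3 + x 4 * v 4 := by
  rw [val, Fin.sum_univ_five]
  change (((-1 : ℤ) : ℝ)) * x 0 * v 0 + (((-1 : ℤ) : ℝ)) * x 1 * v 1 + (((-1 : ℤ) : ℝ)) * x 2 * v 2 + (((-1 : ℤ) : ℝ)) * x 3 * v 3 + (((1 : ℤ) : ℝ)) * x 4 * v 4 = _
  push_cast
  ring

lemma val_5 (x v : Fin 5 → ℝ) : val x v 5 =
    -x 2 * v 0 - x 3 * v 1 - x 0 * v 2 - x 1 * v 3 - x 4 * v 4 := by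
  rw [val, Fin.sum_univ_five]
  change (((-1 : ℤ) : ℝ)) * x 2 * v 0 + (((-1 : ℤ) : ℝ)) * x 3 * v 1 + (((-1 : ℤ) : ℝ)) * x 0 * v 2 + (((-1 : ℤ) : ℝ)) * x 1 * v 3 + (((-1 : ℤ) : ℝ)) * x 4 * v 4 = _
  push_cast
  ring

lemma val_6 (x v : Fin 5 → ℝ) : val x v 6 =
    x 1 * v 0 - x 0 * v 1 - x 3 * v 2 + x 2 * v 3 + x 4 * v 4 := by
  rw [val, Fin.sum_univ_five]
  change (((1 : ℤ) : ℝ)) * x 1 * v 0 + (((-1 : ℤ) : ℝ)) * x 0 * v 1 + (((-1 : ℤ) : ℝ)) * x 3 * v 2 + (((1 : ℤ) : ℝ)) * x 2 * v 3 + (((1 : ℤ) : ℝ)) * x 4 * v 4 = _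
  push_cast
  ring

lemma val_7 (x v : Fin 5 → ℝ) : val x v 7 =
    x 3 * v 0 - x 2 * v 1 - x 1 * v 2 + x 0 * v 3 - x 4 * v 4 := by
  rw [val, Fin.sum_univ_five]
  change (((1 : ℤ) : ℝ)) * x 3 * v 0 + (((-1 : ℤ) : ℝ)) * x 2 * v 1 + (((-1 : ℤ) : ℝ)) * x 1 * v 2 + (((1 : ℤ) : ℝ)) * x 0 * v 3 + (((-1 : ℤ) : ℝ)) * x 4 * v 4 = _
  push_cast
  ring

lemma val_8 (x v : Fin 5 → ℝ) : val x v 8 =
    x 0 * v 0 + x 1 * v 1 - x 2 * v 2 - x 3 * v 3 + x 4 * v 4 := by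
  rw [val, Fin.sum_univ_five]
  change (((1 : ℤ) : ℝ)) * x 0 * v 0 + (((1 : ℤ) : ℝ)) * x 1 * v 1 + (((-1 : ℤ) : ℝ)) * x 2 * v 2 + (((-1 : ℤ) : ℝ)) * x 3 * v 3 + (((1 : ℤ) : ℝ)) * x 4 * v 4 = _
  push_cast
  ring

lemma val_9 (x v : Fin 5 → ℝ) : val x v 9 =
    x 2 * v 0 + x 3 * v 1 - x 0 * v 2 - x 1 * v 3 - x 4 * v 4 := by
  rw [val, Fin.sum_univ_five]
  change (((1 : ℤ) : ℝ)) * x 2 * v 0 + (((1 : ℤ) : ℝ)) * x 3 * v 1 + (((-1 : ℤ) : ℝ)) * x 0 * v 2 + (((-1 : ℤ) : ℝ)) * x 1 * v 3 + (((-1 : ℤ) : ℝ)) * x 4 * v 4 = _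
  push_cast
  ring

lemma val_10 (x v : Fin 5 → ℝ) : val x v 10 =
    -x 1 * v 0 + x 0 * v 1 - x 3 * v 2 + x 2 * v 3 + x 4 * v 4 := by
  rw [val, Fin.sum_univ_five]
  change (((-1 : ℤ) : ℝ)) * x 1 * v 0 + (((1 : ℤ) : ℝ)) * x 0 * v 1 + (((-1 : ℤ) : ℝ)) * x 3 * v 2 + (((1 : ℤ) : ℝ)) * x 2 * v 3 + (((1 : ℤ) : ℝ)) * x 4 * v 4 = _
  push_cast
  ring

lemma val_11 (x v : Fin 5 → ℝ) : val x v 11 =
    -x 3 * v 0 + x 2 * v 1 - x 1 * v 2 + x 0 * v 3 - x 4 * v 4 := by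
  rw [val, Fin.sum_univ_five]
  change (((-1 : ℤ) : ℝ)) * x 3 * v 0 + (((1 : ℤ) : ℝ)) * x 2 * v 1 + (((-1 : ℤ) : ℝ)) * x 1 * v 2 + (((1 : ℤ) : ℝ)) * x 0 * v 3 + (((-1 : ℤ) : ℝ)) * x 4 * v 4 = _
  push_cast
  ring

lemma val_12 (x v : Fin 5 → ℝ) : val x v 12 =
    -x 0 * v 0 - x 1 * v 1 + x 2 * v 2 + x 3 * v 3 + x 4 * v 4 := by
  rw [val, Fin.sum_univ_five]
  change (((-1 : ℤ) : ℝ)) * x 0 * v 0 + (((-1 : ℤ) : ℝ)) * x 1 * v 1 + (((1 : ℤ) : ℝ)) * x 2 * v 2 + (((1 : ℤ) : ℝ)) * x 3 * v 3 + (((1 : ℤ) : ℝ)) * x 4 * v 4 = _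
  push_cast
  ring

lemma val_13 (x v : Fin 5 → ℝ) : val x v 13 =
    -x 2 * v 0 - x 3 * v 1 + x 0 * v 2 + x 1 * v 3 - x 4 * v 4 := by
  rw [val, Fin.sum_univ_five]
  change (((-1 : ℤ) : ℝ)) * x 2 * v 0 + (((-1 : ℤ) : ℝ)) * x 3 * v 1 + (((1 : ℤ) : ℝ)) * x 0 * v 2 + (((1 : ℤ) : ℝ)) * x 1 * v 3 + (((-1 : ℤ) : ℝ)) * x 4 * v 4 = _
  push_cast
  ring

lemma val_14 (x v : Fin 5 → ℝ) : val x v 14 =
    x 1 * v 0 - x 0 * v 1 + x 3 * v 2 - x 2 * v 3 + x 4 * v 4 := by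
  rw [val, Fin.sum_univ_five]
  change (((1 : ℤ) : ℝ)) * x 1 * v 0 + (((-1 : ℤ) : ℝ)) * x 0 * v 1 + (((1 : ℤ) : ℝ)) * x 3 * v 2 + (((-1 : ℤ) : ℝ)) * x 2 * v 3 + (((1 : ℤ) : ℝ)) * x 4 * v 4 = _
  push_cast
  ring

lemma val_15 (x v : Fin 5 → ℝ) : val x v 15 =
    x 3 * v 0 - x 2 * v 1 + x 1 * v 2 - x 0 * v 3 - x 4 * v 4 := by
  rw [val, Fin.sum_univ_five]
  change (((1 : ℤ) : ℝ)) * x 3 * v 0 + (((-1 : ℤ) : ℝ)) * x 2 * v 1 + (((1 : ℤ) : ℝ)) * x 1 * v 2 + (((-1 : ℤ) : ℝ)) * x 0 * v 3 + (((-1 : ℤ) : ℝ)) * x 4 * v 4 = _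
  push_cast
  ring


end Pool.Agent.Helper78.OrbitPolytope
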