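import Pool.Agent.Helper78.OrbitPolytope.Base

/-!
# All functionals at the base point
-/

open Set
open scoped InnerProductSpace

namespace Pool.Agent.Helper78.OrbitPolytope

/-- The base point. -/
noncomputable def base (t : ℝ) : E5 := !₂[t * √2, 0, t, t, t]

lemma base_0 (t : ℝ) : base t 0 = t * √2 := rfl
lemma base_1 (t : ℝ) : base t 1 = 0 := rfl
lemma base_2 (t : ℝ) : base t 2 = t := rfl
lemma base_3 (t : ℝ) : base t 3 = t := rfl
lemma base_4 (t : ℝ) : base t 4 = t := rfl

lemma mem_arg_iff (w v : E5) (i : Fin 16) :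
    i ∈ Arg (orb w) v ↔ ∀ j, val w v j ≤ val w v i := by
  simp only [Arg, mem_ofPred_eq, inner_orb]

lemma even_cases : ∀ i : Fin 16, i.1 % 2 = 0 → i ∈ ({0, 2, 4, 6, 8, 10, 12, 14} : Finset (Fin 16)) := by
  decide +kernel

lemma odd_cases : ∀ i : Fin 16, i.1 % 2 = 1 → i ∈ ({1, 3, 5, 7, 9, 11, 13, 15} : Finset (Fin 16)) := by
  decide +kernel

lemma mem_Sset_A : ∀ a b k : Fin 8, emA k ∉ Sset a b → k ≠ a - 1 ∧ k ≠ a ∧ k ≠ a + 1 := by
  intro a b k h
  refine ⟨?_, ?_, ?_⟩ <;> rintro rfl <;> apply h <;> simp [Sset]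

lemma mem_Sset_B : ∀ a b k : Fin 8, emB k ∉ Sset a b → k ≠ b - 1 ∧ k ≠ b ∧ k ≠ b + 1 := by
  intro a b k h
  refine ⟨?_, ?_, ?_⟩ <;> rintro rfl <;> apply h <;> simp [Sset]

lemma plane_bound {a b s c mx : ℝ} (hs : 0 < s) {V : Fin 8 → ℝ}
    (e0 : V 0 = a + c) (e1 : s * V 1 = a + b - s * c) (e2 : V 2 = b + c)
    (e3 : s * V 3 = b - a - s * c) (e4 : V 4 = -a + c) (e5 : s * V 5 = -a - b - s * c)
    (e6 : V 6 = -b + c) (e7 : s * V 7 = a - b - s * c) (k : Fin 8)
    (hk : Fpl a b k < Bpl (mx - c) (s * (mx + c)) k) : V k < mx := by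
  have key : ∀ x : ℝ, s * x < s * mx → x < mx := fun x h => lt_of_mul_lt_mul_left h hs.le
  fin_cases k <;> simp [Fpl, Bpl] at hk ⊢
  · linarith
  · apply key
    rw [e1]
    linarith
  · linarith
  · apply key
    rw [e3]
    linarith
  · linarith
  · apply key
    rw [e5]
    linarith
  · linarith
  · apply key
    rw [e7]
    linarith

theorem base_case {t : ℝ} (ht : 0 < t) {v : E5} (hv : v ≠ 0) :
    ∃ S : Finset (Fin 16), IsFac S ∧ Arg (orb (base t)) v ⊆ S := by
  classical
  by_cases hE : ∀ i ∈ Arg (orb (base t)) v, i.1 % 2 = 0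
  · exact ⟨_, isFac_even, fun i hi => even_cases i (hE i hi)⟩
  by_cases hO : ∀ i ∈ Arg (orb (base t)) v, i.1 % 2 = 1
  · exact ⟨_, isFac_odd, fun i hi => odd_cases i (hO i hi)⟩
  push Not at hE hO
  obtain ⟨j, hj, hjo⟩ := hE
  obtain ⟨i, hi, hie⟩ := hO
  replace hjo : j.1 % 2 = 1 := by omega
  replace hie : i.1 % 2 = 0 := by omega
  rw [mem_arg_iff] at hi hj
  have hs : 0 < √2 := by positivity
  have hs2 : √2 * √2 = 2 := Real.mul_self_sqrt (by norm_num)
  obtain ⟨s, hsdef⟩ : ∃ s, s = √2 := ⟨_, rfl⟩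
  rw [← hsdef] at hs hs2
  -- the coordinates of the functional
  obtain ⟨a0, ha0⟩ : ∃ a0, a0 = t * (s * v 0 + v 2 + v 3) := ⟨_, rfl⟩
  obtain ⟨a2, ha2⟩ : ∃ a2, a2 = t * (s * v 1 + v 2 - v 3) := ⟨_, rfl⟩
  obtain ⟨b0, hb0⟩ : ∃ b0, b0 = t * (s * v 0 - v 2 - v 3) := ⟨_, rfl⟩
  obtain ⟨b2, hb2⟩ : ∃ b2, b2 = t * (s * v 1 - v 2 + v 3) := ⟨_, rfl⟩
  obtain ⟨c, hc⟩ : ∃ c, c = t * v 4 := ⟨_, rfl⟩
  have e0 : val (base t) v 0 = a0 + c := by
    rw [val_0, base_0, base_1, base_2, base_3, base_4, ha0, hc, ← hsdef]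
    ring
  have e1 : s * val (base t) v 1 = a0 + a2 - s * c := by
    rw [val_1, base_0, base_1, base_2, base_3, base_4, ha0, ha2, hc, ← hsdef]
    linear_combination (t * v 2) * hs2
  have e2 : val (base t) v 2 = a2 + c := by
    rw [val_2, base_0, base_1, base_2, base_3, base_4, ha2, hc, ← hsdef]
    ring
  have e3 : s * val (base t) v 3 = a2 - a0 - s * c := by
    rw [val_3, base_0, base_1, base_2, base_3, base_4, ha0, ha2, hc, ← hsdef]
    linear_combination (-t * v 3) * hs2
  have e4 : val (base t) v 4 = -a0 + c := by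
    rw [val_4, base_0, base_1, base_2, base_3, base_4, ha0, hc, ← hsdef]
    ring
  have e5 : s * val (base t) v 5 = -a0 - a2 - s * c := by
    rw [val_5, base_0, base_1, base_2, base_3, base_4, ha0, ha2, hc, ← hsdef]
    linear_combination (-t * v 2) * hs2
  have e6 : val (base t) v 6 = -a2 + c := by
    rw [val_6, base_0, base_1, base_2, base_3, base_4, ha2, hc, ← hsdef]
    ring
  have e7 : s * val (base t) v 7 = a0 - a2 - s * c := by
    rw [val_7, base_0, base_1, base_2, base_3, base_4, ha0, ha2, hc, ← hsdef]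
    linear_combination (t * v 3) * hs2
  have f0 : val (base t) v 8 = b0 + c := by
    rw [val_8, base_0, base_1, base_2, base_3, base_4, hb0, hc, ← hsdef]
    ring
  have f1 : s * val (base t) v 9 = b0 + b2 - s * c := by
    rw [val_9, base_0, base_1, base_2, base_3, base_4, hb0, hb2, hc, ← hsdef]
    linear_combination (-t * v 2) * hs2
  have f2 : val (base t) v 10 = b2 + c := by
    rw [val_10, base_0, base_1, base_2, base_3, base_4, hb2, hc, ← hsdef]
    ring
  have f3 : s * val (base t) v 11 = b2 - b0 - s * c := by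
    rw [val_11, base_0, base_1, base_2, base_3, base_4, hb0, hb2, hc, ← hsdef]
    linear_combination (t * v 3) * hs2
  have f4 : val (base t) v 12 = -b0 + c := by
    rw [val_12, base_0, base_1, base_2, base_3, base_4, hb0, hc, ← hsdef]
    ring
  have f5 : s * val (base t) v 13 = -b0 - b2 - s * c := by
    rw [val_13, base_0, base_1, base_2, base_3, base_4, hb0, hb2, hc, ← hsdef]
    linear_combination (t * v 2) * hs2
  have f6 : val (base t) v 14 = -b2 + c := by
    rw [val_14, base_0, base_1, base_2, base_3, base_4, hb2, hc, ← hsdef]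
    ring
  have f7 : s * val (base t) v 15 = b0 - b2 - s * c := by
    rw [val_15, base_0, base_1, base_2, base_3, base_4, hb0, hb2, hc, ← hsdef]
    linear_combination (-t * v 3) * hs2
  obtain ⟨mx, hmx⟩ : ∃ mx, mx = val (base t) v i := ⟨_, rfl⟩
  have hmxj : mx = val (base t) v j := le_antisymm (hmx ▸ hj i) (hmx ▸ hi j)
  have hle : ∀ k, val (base t) v k ≤ mx := fun k => hmx ▸ hi k
  have hles : ∀ k, s * val (base t) v k ≤ s * mx := fun k => mul_le_mul_of_nonneg_left (hle k) hs.le
  obtain ⟨M, hM⟩ : ∃ M, M = mx - c := ⟨_, rfl⟩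
  obtain ⟨N, hN⟩ : ∃ N, N = s * (mx + c) := ⟨_, rfl⟩
  have l0 : a0 ≤ M := by have := hle 0; linarith
  have l2 : a2 ≤ M := by have := hle 2; linarith
  have l4 : -a0 ≤ M := by have := hle 4; linarith
  have l6 : -a2 ≤ M := by have := hle 6; linarith
  have m0 : b0 ≤ M := by have := hle 8; linarith
  have m2 : b2 ≤ M := by have := hle 10; linarith
  have m4 : -b0 ≤ M := by have := hle 12; linarith
  have m6 : -b2 ≤ M := by have := hle 14; linarith
  have l1 : a0 + a2 ≤ N := by have := hles 1; linarith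
  have l3 : a2 - a0 ≤ N := by have := hles 3; linarith
  have l5 : -a0 - a2 ≤ N := by have := hles 5; linarith
  have l7 : a0 - a2 ≤ N := by have := hles 7; linarith
  have m1 : b0 + b2 ≤ N := by have := hles 9; linarith
  have m3 : b2 - b0 ≤ N := by have := hles 11; linarith
  have m5 : -b0 - b2 ≤ N := by have := hles 13; linarith
  have m7 : b0 - b2 ≤ N := by have := hles 15; linarith
  have hMN : M ≤ N := by
    have h1 := even_cases i hie
    simp only [Finset.mem_insert, Finset.mem_singleton] at h1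
    rcases h1 with rfl | rfl | rfl | rfl | rfl | rfl | rfl | rfl <;> linarith
  have hMpos : 0 < M := by
    by_contra hcon
    have hM0 : M = 0 := by linarith
    have h1 : a0 = 0 := by linarith
    have h2 : a2 = 0 := by linarith
    have h3 : b0 = 0 := by linarith
    have h4 : b2 = 0 := by linarith
    have hN0 : N = 0 := by
      have h1 := odd_cases j hjo
      have h5 : s * mx = s * val (base t) v j := by rw [hmxj]
      simp only [Finset.mem_insert, Finset.mem_singleton] at h1
      rcases h1 with rfl | rfl | rfl | rfl | rfl | rfl | rfl | rfl <;> linarith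
    have h5 : mx + c = 0 := by
      rw [hN] at hN0
      rcases mul_eq_zero.mp hN0 with h | h
      · exact absurd h hs.ne'
      · exact h
    have h6 : c = 0 := by linarith
    apply hv
    have g4 : v 4 = 0 := by
      rw [hc] at h6
      exact (mul_eq_zero.mp h6).resolve_left ht.ne'
    have g0 : v 0 = 0 := by
      have h7 : (2 * t * s) * v 0 = 0 := by
        linear_combination (-1 : ℝ) * ha0 - hb0 + h1 + h3
      exact (mul_eq_zero.mp h7).resolve_left (by positivity)
    have g1 : v 1 = 0 := by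
      have h7 : (2 * t * s) * v 1 = 0 := by
        linear_combination (-1 : ℝ) * ha2 - hb2 + h2 + h4
      exact (mul_eq_zero.mp h7).resolve_left (by positivity)
    have g23 : v 2 + v 3 = 0 := by
      have h7 : (2 * t) * (v 2 + v 3) = 0 := by
        linear_combination (-1 : ℝ) * ha0 + hb0 + h1 - h3
      exact (mul_eq_zero.mp h7).resolve_left (by positivity)
    have g32 : v 2 - v 3 = 0 := by
      have h7 : (2 * t) * (v 2 - v 3) = 0 := by
        linear_combination (-1 : ℝ) * ha2 + hb2 + h2 - h4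
      exact (mul_eq_zero.mp h7).resolve_left (by positivity)
    ext k
    fin_cases k
    · exact g0
    · exact g1
    · change v 2 = 0
      linarith
    · change v 3 = 0
      linarith
    · exact g4
  have hNpos : 0 < N := by linarith
  -- the conclusion from centres in the two planes
  have concl : ∀ a b : Fin 8, a.1 % 2 = b.1 % 2 →
      (∀ k, k ≠ a - 1 → k ≠ a → k ≠ a + 1 → Fpl a0 a2 k < Bpl M N k) →
      (∀ k, k ≠ b - 1 → k ≠ b → k ≠ b + 1 → Fpl b0 b2 k < Bpl M N k) →
      ∃ S : Finset (Fin 16), IsFac S ∧ Arg (orb (base t)) v ⊆ S := by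
    intro a b hab hA hB
    refine ⟨Sset a b, isFac_Sset a b hab, fun k hk => ?_⟩
    rw [mem_arg_iff] at hk
    by_contra hcon
    have hge : mx ≤ val (base t) v k := hmx ▸ hk i
    rcases em_cases k with ⟨l, rfl⟩ | ⟨l, rfl⟩
    · obtain ⟨h1, h2, h3⟩ := mem_Sset_A a b l hcon
      have h4 := hA l h1 h2 h3
      rw [hM, hN] at h4
      have h5 := plane_bound (V := fun l => val (base t) v (emA l)) hs e0 e1 e2 e3 e4 e5 e6 e7 l h4
      exact absurd h5 (not_lt.mpr hge)
    · obtain ⟨h1, h2, h3⟩ := mem_Sset_B a b l hcon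
      have h4 := hB l h1 h2 h3
      rw [hM, hN] at h4
      have h5 := plane_bound (V := fun l => val (base t) v (emB l)) hs f0 f1 f2 f3 f4 f5 f6 f7 l h4
      exact absurd h5 (not_lt.mpr hge)
  rcases lt_or_ge M N with hlt | hge
  · obtain ⟨a, ha, hA⟩ := plane_odd hMpos l0 l4 l2 l6 hlt
    obtain ⟨b, hb, hB⟩ := plane_odd hMpos m0 m4 m2 m6 hlt
    exact concl a b (by rw [ha, hb]) hA hB
  · obtain ⟨a, ha, hA⟩ := plane_even hMpos hNpos hge l1 l3 l5 l7
    obtain ⟨b, hb, hB⟩ := plane_even hMpos hNpos hge m1 m3 m5 m7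
    exact concl a b (by rw [ha, hb]) hA hB

end Pool.Agent.Helper78.OrbitPolytope
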