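import Pool.Agent.Helper78.OrbitPolytope.Defs

/-!
# A set which looks like a cross is not a submanifold
-/

open Set Filter Topology

namespace Pool.Agent.Helper78.OrbitPolytope

variable {V : Type*} [NormedAddCommGroup V] [InnerProductSpace ℝ V]

lemma deriv_mem_submodule [FiniteDimensional ℝ V] (L : Submodule ℝ V) {f : ℝ → V} {f' : V}
    (hf : HasDerivAt f f' 0) (hL : ∀ᶠ s in 𝓝 (0 : ℝ), f s ∈ L) : f' ∈ L := by
  have h0 : f 0 ∈ L := hL.self_of_nhds
  have hcl : IsClosed (L : Set V) := L.closed_of_finiteDimensional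
  have ht := hasDerivAt_iff_tendsto_slope.mp hf
  refine hcl.mem_of_tendsto ht ?_
  filter_upwards [hL.filter_mono nhdsWithin_le_nhds] with s hs
  rw [slope_def_module]
  exact L.smul_mem _ (L.sub_mem hs h0)

/-- If `M` is contained near `w` in the union of the zero sets of `g₁` and `g₂`, and contains two
curves through `w` on the sum of whose velocities the derivatives of `g₁` and `g₂` do not vanish,
then `M` is not a submanifold. -/
theorem not_isEmbeddedSubmanifold [FiniteDimensional ℝ V] {M : Set V} {w : V} (hw : w ∈ M)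
    {n : WithTop ℕ∞} (hn : 1 ≤ n)
    {g₁ g₂ : V → ℝ} {D₁ D₂ : V →L[ℝ] ℝ} (h1 : HasFDerivAt g₁ D₁ w) (h2 : HasFDerivAt g₂ D₂ w)
    (hM : ∀ᶠ x in 𝓝 w, x ∈ M → g₁ x * g₂ x = 0)
    {γ₁ γ₂ : ℝ → V} {v₁ v₂ : V} (hγ₁ : HasDerivAt γ₁ v₁ 0) (hγ₂ : HasDerivAt γ₂ v₂ 0)
    (e1 : γ₁ 0 = w) (e2 : γ₂ 0 = w)
    (m1 : ∀ᶠ s in 𝓝 (0 : ℝ), γ₁ s ∈ M) (m2 : ∀ᶠ s in 𝓝 (0 : ℝ), γ₂ s ∈ M)
    (a1 : D₁ (v₁ + v₂) ≠ 0) (a2 : D₂ (v₁ + v₂) ≠ 0) : ¬ IsEmbeddedSubmanifold n M := by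
  intro hsub
  obtain ⟨φ, L, hwφ, hφ, hφs, hL⟩ := hsub w hw
  have hn0 : n ≠ 0 := by
    rintro rfl
    exact absurd hn (by norm_num)
  have hd : DifferentiableAt ℝ φ w :=
    (hφ.differentiableOn hn0).differentiableAt (φ.open_source.mem_nhds hwφ)
  have hds : DifferentiableAt ℝ φ.symm (φ w) :=
    (hφs.differentiableOn hn0).differentiableAt (φ.open_target.mem_nhds (φ.map_source hwφ))
  set A := fderiv ℝ φ w with hA
  set B := fderiv ℝ φ.symm (φ w) with hB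
  have hAd : HasFDerivAt φ A w := hd.hasFDerivAt
  have hBd : HasFDerivAt φ.symm B (φ w) := hds.hasFDerivAt
  have hBA : ∀ v, B (A v) = v := by
    have h3 : HasFDerivAt (fun x => φ.symm (φ x)) (B.comp A) w := hBd.comp w hAd
    have h4 : HasFDerivAt (fun x : V => x) (B.comp A) w := by
      refine h3.congr_of_eventuallyEq ?_
      filter_upwards [φ.open_source.mem_nhds hwφ] with x hx
      exact (φ.left_inv hx).symm
    have h5 := h4.unique (hasFDerivAt_id w)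
    intro v
    have := congrArg (fun T : V →L[ℝ] V => T v) h5
    simpa using this
  have hcurve : ∀ {γ : ℝ → V} {v : V}, HasDerivAt γ v 0 → γ 0 = w →
      (∀ᶠ s in 𝓝 (0 : ℝ), γ s ∈ M) → A v ∈ L := by
    intro γ v hγ e m
    have h3 : HasDerivAt (fun s => φ (γ s)) (A v) 0 := by
      have h4 : HasFDerivAt φ A (γ 0) := by rw [e]; exact hAd
      exact h4.comp_hasDerivAt (0 : ℝ) hγ
    refine deriv_mem_submodule L h3 ?_
    have hc : ∀ᶠ s in 𝓝 (0 : ℝ), γ s ∈ φ.source := by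
      have := hγ.continuousAt
      apply this.eventually_mem
      rw [e]
      exact φ.open_source.mem_nhds hwφ
    filter_upwards [hc, m] with s hs hsM
    exact (hL _ hs).1 hsM
  have hAL : A (v₁ + v₂) ∈ L := by
    rw [map_add]
    exact L.add_mem (hcurve hγ₁ e1 m1) (hcurve hγ₂ e2 m2)
  have hwL : φ w ∈ L := (hL w hwφ).1 hw
  -- the curve in the direction `v₁ + v₂`
  set c : ℝ → V := fun s => φ.symm (φ w + s • A (v₁ + v₂)) with hc
  have hc0 : c 0 = w := by simp [hc, φ.left_inv hwφ]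
  have hin : HasDerivAt (fun s : ℝ => φ w + s • A (v₁ + v₂)) (A (v₁ + v₂)) 0 := by
    have := ((hasDerivAt_id (0 : ℝ)).smul_const (A (v₁ + v₂))).const_add (φ w)
    simpa using this
  have hcd : HasDerivAt c (v₁ + v₂) 0 := by
    have h3 : HasFDerivAt φ.symm B (φ w + (0 : ℝ) • A (v₁ + v₂)) := by simpa using hBd
    have h4 := h3.comp_hasDerivAt (0 : ℝ) hin
    rwa [hBA] at h4
  have htar : ∀ᶠ s in 𝓝 (0 : ℝ), φ w + s • A (v₁ + v₂) ∈ φ.target := by
    apply hin.continuousAt.eventually_mem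
    have : φ w + (0 : ℝ) • A (v₁ + v₂) = φ w := by simp
    rw [this]
    exact φ.open_target.mem_nhds (φ.map_source hwφ)
  have hcM : ∀ᶠ s in 𝓝 (0 : ℝ), c s ∈ M := by
    filter_upwards [htar] with s hs
    rw [hL _ (φ.map_target hs), φ.right_inv hs]
    exact L.add_mem hwL (L.smul_mem _ hAL)
  have hz : ∀ᶠ s in 𝓝 (0 : ℝ), g₁ (c s) * g₂ (c s) = 0 := by
    have h3 : ∀ᶠ s in 𝓝 (0 : ℝ), (c s ∈ M → g₁ (c s) * g₂ (c s) = 0) := by
      have : Tendsto c (𝓝 0) (𝓝 w) := by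
        have := hcd.continuousAt.tendsto
        rwa [hc0] at this
      exact this.eventually hM
    filter_upwards [h3, hcM] with s hs hs'
    exact hs hs'
  have hn1 : ∀ᶠ s in 𝓝[≠] (0 : ℝ), g₁ (c s) ≠ 0 := by
    have h3 : HasFDerivAt g₁ D₁ (c 0) := by rw [hc0]; exact h1
    exact (h3.comp_hasDerivAt (0 : ℝ) hcd).eventually_ne a1
  have hn2 : ∀ᶠ s in 𝓝[≠] (0 : ℝ), g₂ (c s) ≠ 0 := by
    have h3 : HasFDerivAt g₂ D₂ (c 0) := by rw [hc0]; exact h2
    exact (h3.comp_hasDerivAt (0 : ℝ) hcd).eventually_ne a2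
  obtain ⟨s, ⟨hs1, hs2⟩, hs3⟩ :=
    ((hn1.and hn2).and (hz.filter_mono nhdsWithin_le_nhds)).exists
  rcases mul_eq_zero.mp hs3 with h | h
  · exact hs1 h
  · exact hs2 h

end Pool.Agent.Helper78.OrbitPolytope
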