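import Mathlib

/-!
# Orbit polytopes, combinatorial types and embedded submanifolds

Definitions used to state the question on the classes of points of a sphere whose orbit polytopes
(for a fixed finite group of linear isometries) have the same combinatorial type.
-/

open Set

namespace Pool.Agent.Helper78.OrbitPolytope

variable {V : Type*} [NormedAddCommGroup V] [InnerProductSpace ℝ V]

/-- The orbit polytope `Q_w = conv {g w : g ∈ Γ}`. -/
def orbitPolytope (Γ : Subgroup (V ≃ₗᵢ[ℝ] V)) (w : V) : Set V :=
  convexHull ℝ {x | ∃ g ∈ Γ, g w = x}

/-- The poset of faces of a convex set `P` ordered by inclusion: the faces are the exposed faces,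
i.e. the empty set, and the sets of points of `P` at which some linear functional is maximal
on `P` (the zero functional gives `P` itself). For polytopes these are all the faces. -/
abbrev FacePoset (P : Set V) : Type _ := {F : Set V // IsExposed ℝ P F}

/-- Two polytopes have the same combinatorial type: their posets of faces are isomorphic. -/
def SameType (P Q : Set V) : Prop := Nonempty (FacePoset P ≃o FacePoset Q)

/-- The combinatorial type class of `w` in the sphere of radius `r`. -/
def typeClass (Γ : Subgroup (V ≃ₗᵢ[ℝ] V)) (r : ℝ) (w : V) : Set V :=
  {w' | w' ∈ Metric.sphere (0 : V) r ∧ SameType (orbitPolytope Γ w') (orbitPolytope Γ w)}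

/-- `M` is an embedded submanifold of class `C^n` of the space `V`: around each of its points there
is a `C^n` chart `φ` of `V` (a homeomorphism between open subsets of `V` which is `C^n`, as well as
its inverse) which carries `M` to a linear subspace `L`. The dimension of `L` may depend on the
point. -/
def IsEmbeddedSubmanifold (n : WithTop ℕ∞) (M : Set V) : Prop :=
  ∀ p ∈ M, ∃ (φ : OpenPartialHomeomorph V V) (L : Submodule ℝ V), p ∈ φ.source ∧
    ContDiffOn ℝ n φ φ.source ∧ ContDiffOn ℝ n φ.symm φ.target ∧
    ∀ x ∈ φ.source, (x ∈ M ↔ φ x ∈ L)

end Pool.Agent.Helper78.OrbitPolytope
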