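import Pool.Agent.Helper78.OrbitPolytope.Defs

/-!
# Faces of the convex hull of finitely many points in terms of labels
-/

open Set
open scoped InnerProductSpace

namespace Pool.Agent.Helper78.OrbitPolytope

variable {V : Type*} [NormedAddCommGroup V] [InnerProductSpace ℝ V]
variable {ι : Type*}

/-- The labels at which the functional `⟪v, ·⟫` is maximal. -/
def Arg (q : ι → V) (v : V) : Set ι := {i | ∀ j, ⟪v, q j⟫_ℝ ≤ ⟪v, q i⟫_ℝ}

/-- The label sets of the faces. -/
def LS (q : ι → V) : Set (Set ι) := {T | T = ∅ ∨ ∃ v, T = Arg q v}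

lemma hull_le_iff (q : ι → V) (l : V →L[ℝ] ℝ) (c : ℝ) :
    (∀ y ∈ convexHull ℝ (range q), l y ≤ c) ↔ ∀ j, l (q j) ≤ c := by
  constructor
  · intro h j
    exact h _ (subset_convexHull ℝ _ (mem_range_self j))
  · intro h y hy
    have hc : Convex ℝ {y : V | l y ≤ c} := by
      have := convex_halfSpace_le (𝕜 := ℝ) (f := l) ⟨map_add l, map_smul l⟩ c
      exact this
    exact convexHull_min (by rintro _ ⟨j, rfl⟩; exact h j) hc hy

lemma mem_hull_arg (q : ι → V) (l : V →L[ℝ] ℝ) (M : ℝ) (hM : ∀ j, l (q j) ≤ M) {x : V}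
    (hx : x ∈ convexHull ℝ (range q)) (hxM : M ≤ l x) :
    x ∈ convexHull ℝ (q '' {j | l (q j) = M}) := by
  set C := convexHull ℝ (q '' {j | l (q j) = M}) with hC
  have hCM : ∀ y ∈ C, l y = M := by
    intro y hy
    have hc : Convex ℝ {y : V | l y = M} :=
      convex_hyperplane (𝕜 := ℝ) (f := l) ⟨map_add l, map_smul l⟩ M
    exact convexHull_min (by rintro _ ⟨j, hj, rfl⟩; exact hj) hc hy
  have hconv : Convex ℝ {y : V | l y < M ∨ y ∈ C} := by
    intro y hy z hz a b ha hb hab
    have hyM : l y ≤ M := by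
      rcases hy with hy | hy
      · exact hy.le
      · exact (hCM y hy).le
    have hzM : l z ≤ M := by
      rcases hz with hz | hz
      · exact hz.le
      · exact (hCM z hz).le
    rcases eq_or_lt_of_le ha with ha0 | ha0
    · subst ha0
      have : b = 1 := by linarith
      subst this
      simpa using hz
    rcases eq_or_lt_of_le hb with hb0 | hb0
    · subst hb0
      have : a = 1 := by linarith
      subst this
      simpa using hy
    rcases hy with hy | hy
    · left
      simp only [map_add, map_smul, smul_eq_mul]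
      have : M = a * M + b * M := by rw [← add_mul, hab, one_mul]
      nlinarith [mul_lt_mul_of_pos_left hy ha0, mul_le_mul_of_nonneg_left hzM hb]
    rcases hz with hz | hz
    · left
      simp only [map_add, map_smul, smul_eq_mul]
      have : M = a * M + b * M := by rw [← add_mul, hab, one_mul]
      nlinarith [mul_lt_mul_of_pos_left hz hb0, mul_le_mul_of_nonneg_left hyM ha]
    · right
      exact (convex_convexHull ℝ _) hy hz ha hb hab
  have hsub : range q ⊆ {y : V | l y < M ∨ y ∈ C} := by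
    rintro _ ⟨j, rfl⟩
    rcases lt_or_eq_of_le (hM j) with h | h
    · exact Or.inl h
    · exact Or.inr (subset_convexHull ℝ _ ⟨j, h, rfl⟩)
  rcases convexHull_min hsub hconv hx with h | h
  · exact absurd h (not_lt.mpr hxM)
  · exact h

/-- The face exposed by `l` only contains the points labelled by the maximal labels. -/
lemma exposed_subset_hull (q : ι → V) {B : Set V} (hB : IsExposed ℝ (convexHull ℝ (range q)) B) :
    B ⊆ convexHull ℝ (q '' {i | q i ∈ B}) := by
  intro x hx
  obtain ⟨l, hl⟩ := hB ⟨x, hx⟩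
  have hx' := hx
  rw [hl] at hx'
  have hM : ∀ j, l (q j) ≤ l x := fun j => hx'.2 _ (subset_convexHull ℝ _ (mem_range_self j))
  have := mem_hull_arg q l (l x) hM hx'.1 le_rfl
  refine convexHull_mono ?_ this
  rintro _ ⟨j, hj, rfl⟩
  refine ⟨j, ?_, rfl⟩
  rw [mem_ofPred_eq, hl]
  refine ⟨subset_convexHull ℝ _ (mem_range_self j), fun y hy => ?_⟩
  rw [mem_ofPred_eq] at hj
  rw [hj]
  exact hx'.2 y hy

lemma label_exposed (q : ι → V) (v : V) {B : Set V}
    (hB : B = {x ∈ convexHull ℝ (range q) | ∀ y ∈ convexHull ℝ (range q),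
      innerSL ℝ v y ≤ innerSL ℝ v x}) :
    {i | q i ∈ B} = Arg q v := by
  ext i
  rw [mem_ofPred_eq, hB, mem_ofPred_eq, hull_le_iff]
  simp only [Arg, mem_ofPred_eq, innerSL_apply_apply]
  constructor
  · exact fun h => h.2
  · exact fun h => ⟨subset_convexHull ℝ _ (mem_range_self i), h⟩

lemma label_mem_LS [CompleteSpace V] (q : ι → V) {B : Set V}
    (hB : IsExposed ℝ (convexHull ℝ (range q)) B) : {i | q i ∈ B} ∈ LS q := by
  rcases B.eq_empty_or_nonempty with rfl | hne
  · left
    ext i
    simp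
  · right
    obtain ⟨l, hl⟩ := hB hne
    refine ⟨(InnerProductSpace.toDual ℝ V).symm l, ?_⟩
    apply label_exposed
    rw [hl]
    have : innerSL ℝ ((InnerProductSpace.toDual ℝ V).symm l) = l := by
      ext y
      rw [innerSL_apply_apply, InnerProductSpace.toDual_symm_apply]
    rw [this]

/-- The face poset of the convex hull of a family of points is isomorphic to the poset of the label
sets of its faces. -/
noncomputable def faceIso [CompleteSpace V] (q : ι → V) :
    FacePoset (convexHull ℝ (range q)) ≃o {T // T ∈ LS q} := by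
  let f : FacePoset (convexHull ℝ (range q)) ↪o {T // T ∈ LS q} :=
    OrderEmbedding.ofMapLEIff (fun B => ⟨{i | q i ∈ B.1}, label_mem_LS q B.2⟩) (by
      intro B B'
      constructor
      · intro h
        have h' : {i | q i ∈ B.1} ⊆ {i | q i ∈ B'.1} := h
        have hc : Convex ℝ B'.1 := B'.2.convex (convex_convexHull ℝ _)
        have : convexHull ℝ (q '' {i | q i ∈ B.1}) ⊆ B'.1 := by
          refine convexHull_min ?_ hc
          rintro _ ⟨j, hj, rfl⟩
          exact h' hj
        exact (exposed_subset_hull q B.2).trans this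
      · intro h
        exact fun i hi => h hi)
  refine RelIso.ofSurjective f ?_
  rintro ⟨T, hT⟩
  rcases hT with rfl | ⟨v, rfl⟩
  · refine ⟨⟨∅, isExposed_empty⟩, ?_⟩
    apply Subtype.ext
    change {i | q i ∈ (∅ : Set V)} = ∅
    ext i
    simp
  · refine ⟨⟨{x ∈ convexHull ℝ (range q) | ∀ y ∈ convexHull ℝ (range q),
      innerSL ℝ v y ≤ innerSL ℝ v x}, fun _ => ⟨innerSL ℝ v, rfl⟩⟩, ?_⟩
    apply Subtype.ext
    exact label_exposed q v rfl

lemma sameType_iff [CompleteSpace V] (q q' : ι → V) :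
    SameType (convexHull ℝ (range q)) (convexHull ℝ (range q')) ↔
      Nonempty ({T // T ∈ LS q} ≃o {T // T ∈ LS q'}) := by
  constructor
  · rintro ⟨e⟩
    exact ⟨((faceIso q).symm.trans e).trans (faceIso q')⟩
  · rintro ⟨e⟩
    exact ⟨((faceIso q).trans e).trans (faceIso q').symm⟩

lemma sameType_of_LS_eq [CompleteSpace V] {q q' : ι → V} (h : LS q = LS q') :
    SameType (convexHull ℝ (range q)) (convexHull ℝ (range q')) := by
  rw [sameType_iff, h]
  exact ⟨OrderIso.refl _⟩

/-! ### The family of maximal proper faces determines all faces -/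

/-- The family of all intersections of members of `𝓢`, and the empty set. -/
def FamLS (𝓢 : Set (Set ι)) : Set (Set ι) := {T | T = ∅ ∨ ∃ 𝓣 ⊆ 𝓢, T = ⋂₀ 𝓣}

lemma arg_nonempty [Finite ι] [Nonempty ι] (q : ι → V) (v : V) : (Arg q v).Nonempty := by
  obtain ⟨i, hi⟩ := Finite.exists_max fun i => ⟪v, q i⟫_ℝ
  exact ⟨i, hi⟩

lemma arg_zero (q : ι → V) : Arg q 0 = univ := by
  ext i
  simp [Arg]

lemma arg_add (q : ι → V) (v v' : V) (h : (Arg q v ∩ Arg q v').Nonempty) :
    Arg q (v + v') = Arg q v ∩ Arg q v' := by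
  obtain ⟨k, hk, hk'⟩ := h
  ext i
  simp only [Arg, mem_ofPred_eq, mem_inter_iff, inner_add_left] at *
  constructor
  · intro hi
    have h1 := hi k
    have h2 := hk i
    have h3 := hk' i
    constructor
    · intro j
      have := hk j
      linarith
    · intro j
      have := hk' j
      linarith
  · rintro ⟨h1, h2⟩ j
    have := h1 j
    have := h2 j
    linarith

lemma exists_sep [Finite ι] [Nonempty ι] (q : ι → V) (𝓢 : Set (Set ι))
    (h1 : ∀ S ∈ 𝓢, ∃ v, Arg q v = S) (h0 : univ ∉ 𝓢)
    (h2 : ∀ v, Arg q v ≠ univ → ∃ S ∈ 𝓢, Arg q v ⊆ S) :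
    ∀ (n : ℕ) (v : V), (Arg q v)ᶜ.ncard ≤ n → ∀ i0 ∉ Arg q v, ∃ S ∈ 𝓢, Arg q v ⊆ S ∧ i0 ∉ S := by
  classical
  intro n
  induction n with
  | zero =>
    intro v hv i0 hi0
    have : (Arg q v)ᶜ = ∅ := by
      rw [← Set.ncard_eq_zero (toFinite _)]
      omega
    have h3 : i0 ∈ (Arg q v)ᶜ := hi0
    rw [this] at h3
    exact absurd h3 (notMem_empty _)
  | succ n ih =>
    intro v hv i0 hi0
    have hne : Arg q v ≠ univ := fun h => hi0 (h ▸ mem_univ _)
    obtain ⟨R, hR, hvR⟩ := h2 v hne
    by_cases hi0R : i0 ∈ R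
    swap
    · exact ⟨R, hR, hvR, hi0R⟩
    obtain ⟨u, hu⟩ := h1 R hR
    obtain ⟨k, hk⟩ := arg_nonempty q v
    have hkR : k ∈ R := hvR hk
    have hku : k ∈ Arg q u := hu ▸ hkR
    -- slacks
    set a : ι → ℝ := fun i => ⟪v, q k⟫_ℝ - ⟪v, q i⟫_ℝ with ha
    set b : ι → ℝ := fun i => ⟪u, q k⟫_ℝ - ⟪u, q i⟫_ℝ with hb
    have ha0 : ∀ i, 0 ≤ a i := fun i => sub_nonneg.mpr (hk i)
    have hb0 : ∀ i, 0 ≤ b i := fun i => sub_nonneg.mpr (hku i)
    have haz : ∀ i, i ∈ Arg q v ↔ a i = 0 := by
      intro i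
      constructor
      · intro h
        have := h k
        have := ha0 i
        simp only [ha] at *
        linarith
      · intro h j
        have := ha0 j
        simp only [ha] at *
        linarith
    have hbz : ∀ i, i ∈ R ↔ b i = 0 := by
      intro i
      rw [← hu]
      constructor
      · intro h
        have := h k
        have := hb0 i
        simp only [hb] at *
        linarith
      · intro h j
        have := hb0 j
        simp only [hb] at *
        linarith
    have hRne : ∃ i, i ∉ R := by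
      by_contra hcon
      push Not at hcon
      exact h0 ((eq_univ_of_forall hcon) ▸ hR)
    obtain ⟨i1, hi1⟩ := hRne
    have : Nonempty {i // i ∉ R} := ⟨⟨i1, hi1⟩⟩
    obtain ⟨⟨m, hm⟩, hmin⟩ := Finite.exists_min fun i : {i // i ∉ R} => a i / b i
    have hbpos : ∀ i, i ∉ R → 0 < b i := fun i hi =>
      lt_of_le_of_ne (hb0 i) fun h => hi ((hbz i).2 h.symm)
    set lam : ℝ := a m / b m with hlam
    -- slacks of the new functional
    have hs : ∀ i, ⟪v - lam • u, q k⟫_ℝ - ⟪v - lam • u, q i⟫_ℝ = a i - lam * b i := by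
      intro i
      simp only [ha, hb, inner_sub_left, real_inner_smul_left]
      ring
    have hs0 : ∀ i, 0 ≤ a i - lam * b i := by
      intro i
      by_cases hi : i ∈ R
      · rw [(hbz i).1 hi]
        simpa using ha0 i
      · have h3 := hmin ⟨i, hi⟩
        have h4 := hbpos i hi
        simp only at h3
        rw [le_div_iff₀ h4] at h3
        linarith
    have hnewk : k ∈ Arg q (v - lam • u) := by
      intro j
      have := hs j
      have := hs0 j
      linarith
    have hnew : ∀ i, i ∈ Arg q (v - lam • u) ↔ a i - lam * b i = 0 := by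
      intro i
      constructor
      · intro h
        have h3 := h k
        have h4 := hs i
        have h5 := hs0 i
        linarith
      · intro h j
        have h3 := hs i
        have h4 := hs j
        have h5 := hs0 j
        linarith
    have hsub : Arg q v ⊆ Arg q (v - lam • u) := by
      intro i hi
      rw [hnew, (haz i).1 hi, (hbz i).1 (hvR hi)]
      ring
    have hmnew : m ∈ Arg q (v - lam • u) := by
      rw [hnew, hlam, div_mul_cancel₀ _ (hbpos m hm).ne']
      ring
    have hmv : m ∉ Arg q v := fun h => hm (hvR h)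
    have hi0new : i0 ∉ Arg q (v - lam • u) := by
      rw [hnew, (hbz i0).1 hi0R]
      intro h
      apply hi0
      rw [haz]
      linarith
    have hcard : (Arg q (v - lam • u))ᶜ.ncard ≤ n := by
      have hss : (Arg q (v - lam • u))ᶜ ⊂ (Arg q v)ᶜ := by
        refine ⟨compl_subset_compl.mpr hsub, fun h => ?_⟩
        exact (h hmv) hmnew
      have := Set.ncard_lt_ncard hss (toFinite _)
      omega
    obtain ⟨S, hS, hS1, hS2⟩ := ih _ hcard i0 hi0new
    exact ⟨S, hS, hsub.trans hS1, hS2⟩

theorem LS_eq [Finite ι] [Nonempty ι] (q : ι → V) (𝓢 : Set (Set ι))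
    (h1 : ∀ S ∈ 𝓢, ∃ v, Arg q v = S) (h0 : univ ∉ 𝓢)
    (h2 : ∀ v, Arg q v ≠ univ → ∃ S ∈ 𝓢, Arg q v ⊆ S) : LS q = FamLS 𝓢 := by
  ext T
  constructor
  · rintro (rfl | ⟨v, rfl⟩)
    · exact Or.inl rfl
    · right
      refine ⟨{S | S ∈ 𝓢 ∧ Arg q v ⊆ S}, fun S hS => hS.1, ?_⟩
      apply Subset.antisymm
      · exact subset_sInter fun S hS => hS.2
      · intro i hi
        by_contra hcon
        obtain ⟨S, hS, hS1, hS2⟩ := exists_sep q 𝓢 h1 h0 h2 _ v le_rfl i hcon
        exact hS2 (mem_sInter.mp hi S ⟨hS, hS1⟩)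
  · rintro (rfl | ⟨𝓣, h𝓣, rfl⟩)
    · exact Or.inl rfl
    · have key : ∀ 𝓣 : Set (Set ι), 𝓣.Finite → 𝓣 ⊆ 𝓢 →
          (⋂₀ 𝓣).Nonempty → ∃ v, ⋂₀ 𝓣 = Arg q v := by
        intro 𝓣 hfin
        induction 𝓣, hfin using Set.Finite.induction_on with
        | empty =>
          intro _ _
          exact ⟨0, by rw [sInter_empty, arg_zero]⟩
        | @insert S 𝓤 hS hfin ih =>
          intro hsub hne
          rw [sInter_insert] at hne ⊢
          obtain ⟨v, hv⟩ := ih ((subset_insert _ _).trans hsub) (hne.mono inter_subset_right)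
          obtain ⟨u, hu⟩ := h1 S (hsub (mem_insert _ _))
          refine ⟨u + v, ?_⟩
          rw [arg_add q u v (by rw [hu, ← hv]; exact hne), hu, hv]
      rcases (⋂₀ 𝓣).eq_empty_or_nonempty with he | hne
      · exact Or.inl he
      · exact Or.inr (key 𝓣 (toFinite _) h𝓣 hne)

/-! ### An invariant of the poset -/

/-- Some element covered by the top element is above exactly `n` elements covering the bottom. -/
def HasCoatom (α : Type*) [PartialOrder α] (n : ℕ) : Prop :=
  ∃ c : α, (∃ t, IsTop t ∧ c ⋖ t) ∧ {a : α | (∃ b, IsBot b ∧ b ⋖ a) ∧ a ≤ c}.ncard = n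

lemma hasCoatom_congr {α β : Type*} [PartialOrder α] [PartialOrder β] (e : α ≃o β) (n : ℕ)
    (h : HasCoatom α n) : HasCoatom β n := by
  obtain ⟨c, ⟨t, ht, hct⟩, hn⟩ := h
  refine ⟨e c, ⟨e t, ?_, by rwa [apply_covBy_apply_iff]⟩, ?_⟩
  · intro y
    rw [← e.apply_symm_apply y, e.le_iff_le]
    exact ht _
  · rw [← hn, ← Set.ncard_image_of_injective _ e.injective]
    congr 1
    ext y
    constructor
    · rintro ⟨⟨b, hb, hby⟩, hyc⟩
      refine ⟨e.symm y, ⟨⟨e.symm b, ?_, ?_⟩, ?_⟩, by simp⟩
      · intro z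
        rw [e.symm_apply_le]
        exact hb _
      · rwa [apply_covBy_apply_iff]
      · rwa [e.symm_apply_le]
    · rintro ⟨a, ⟨⟨b, hb, hba⟩, hac⟩, rfl⟩
      refine ⟨⟨e b, ?_, by rwa [apply_covBy_apply_iff]⟩, by rwa [e.le_iff_le]⟩
      intro z
      rw [← e.apply_symm_apply z, e.le_iff_le]
      exact hb _

/-- In the poset `LS q`, when all singletons are label sets of faces. -/
lemma hasCoatom_iff [Finite ι] [Nonempty ι] (q : ι → V) (hs : ∀ i, {i} ∈ LS q) (n : ℕ) :
    HasCoatom {T // T ∈ LS q} n ↔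
      ∃ C ∈ LS q, C ≠ univ ∧ (∀ T ∈ LS q, C ⊆ T → T = C ∨ T = univ) ∧ C.ncard = n := by
  have hu : (univ : Set ι) ∈ LS q := Or.inr ⟨0, (arg_zero q).symm⟩
  have he : (∅ : Set ι) ∈ LS q := Or.inl rfl
  have htop : IsTop (⟨univ, hu⟩ : {T // T ∈ LS q}) := fun T => subset_univ _
  have hbot : IsBot (⟨∅, he⟩ : {T // T ∈ LS q}) := fun T => empty_subset _
  have hatoms : ∀ C : {T // T ∈ LS q},
      {a : {T // T ∈ LS q} | (∃ b, IsBot b ∧ b ⋖ a) ∧ a ≤ C} =
        (fun i : ι => (⟨{i}, hs i⟩ : {T // T ∈ LS q})) '' C.1 := by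
    intro C
    ext a
    constructor
    · rintro ⟨⟨b, hb, hba⟩, haC⟩
      have hb' : b = ⟨∅, he⟩ := le_antisymm (hb _) (hbot _)
      subst hb'
      have hane : a.1.Nonempty := by
        rw [nonempty_iff_ne_empty]
        intro h
        apply hba.lt.ne
        exact Subtype.ext h.symm
      obtain ⟨i, hi⟩ := hane
      have h1 : (⟨∅, he⟩ : {T // T ∈ LS q}) < ⟨{i}, hs i⟩ := by
        apply lt_of_le_of_ne (hbot _)
        intro h
        have := congrArg Subtype.val h
        exact (singleton_nonempty i).ne_empty this.symm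
      have h2 : (⟨{i}, hs i⟩ : {T // T ∈ LS q}) ≤ a := by
        change ({i} : Set ι) ⊆ a.1
        exact singleton_subset_iff.mpr hi
      rcases h2.lt_or_eq with h3 | h3
      · exact absurd h3 (hba.2 h1)
      · exact ⟨i, haC hi, h3⟩
    · rintro ⟨i, hi, rfl⟩
      refine ⟨⟨⟨∅, he⟩, hbot, ?_, ?_⟩, ?_⟩
      · apply lt_of_le_of_ne (hbot _)
        intro h
        have := congrArg Subtype.val h
        exact (singleton_nonempty i).ne_empty this.symm
      · rintro c hc1 hc2
        have h3 : c.1 ⊂ {i} := hc2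
        rw [Set.ssubset_singleton_iff] at h3
        apply hc1.ne
        exact Subtype.ext h3.symm
      · change ({i} : Set ι) ⊆ C.1
        exact singleton_subset_iff.mpr hi
  have hinj : Function.Injective (fun i : ι => (⟨{i}, hs i⟩ : {T // T ∈ LS q})) := by
    intro i j hij
    have := congrArg Subtype.val hij
    exact singleton_injective this
  constructor
  · rintro ⟨c, ⟨t, ht, hct⟩, hn⟩
    have ht' : t = ⟨univ, hu⟩ := le_antisymm (htop _) (ht _)
    subst ht'
    rw [hatoms, ncard_image_of_injective _ hinj] at hn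
    refine ⟨c.1, c.2, ?_, ?_, hn⟩
    · intro h
      apply hct.lt.ne
      exact Subtype.ext h
    · intro T hT hcT
      have h1 : c ≤ ⟨T, hT⟩ := hcT
      rcases h1.lt_or_eq with h2 | h2
      · right
        by_contra hne
        apply hct.2 h2
        apply lt_of_le_of_ne (htop _)
        intro h3
        exact hne (congrArg Subtype.val h3)
      · left
        exact (congrArg Subtype.val h2).symm
  · rintro ⟨C, hC, hCu, hmax, hn⟩
    refine ⟨⟨C, hC⟩, ⟨⟨univ, hu⟩, htop, ?_, ?_⟩, ?_⟩
    · apply lt_of_le_of_ne (htop _)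
      intro h
      exact hCu (congrArg Subtype.val h)
    · rintro T hT1 hT2
      rcases hmax T.1 T.2 hT1.le with h | h
      · apply hT1.ne
        exact Subtype.ext h.symm
      · apply hT2.ne
        exact Subtype.ext h
    · rw [hatoms, ncard_image_of_injective _ hinj]
      exact hn

end Pool.Agent.Helper78.OrbitPolytope
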