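import Pool.Agent.Helper78.OrbitPolytope.Local
import Pool.Agent.Helper78.OrbitPolytope.Cross

/-!
# The class of the base point is a cross near the base point
-/

open Set Filter Topology
open scoped InnerProductSpace

namespace Pool.Agent.Helper78.OrbitPolytope

lemma continuous_val (i : Fin 16) : Continuous fun z : E5 × E5 => val z.1 z.2 i := by
  unfold val
  fun_prop

lemma covered_eventually {t : ℝ} (ht : 0 < t) : ∀ᶠ w in 𝓝 (base t), Covered w := by
  have hK : IsCompact (Metric.sphere (0 : E5) 1) := isCompact_sphere _ _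
  have h : ∀ᶠ w in 𝓝 (base t), ∀ v ∈ Metric.sphere (0 : E5) 1,
      ∃ S : Finset (Fin 16), IsFac S ∧ Arg (orb w) v ⊆ S := by
    refine hK.eventually_forall_of_forall_eventually
      (P := fun (w v : E5) => ∃ S : Finset (Fin 16), IsFac S ∧ Arg (orb w) v ⊆ S) ?_
    intro v hv
    have hv0 : v ≠ 0 := by
      rintro rfl
      simp at hv
    obtain ⟨S, hS, hvS⟩ := base_case ht hv0
    have h1 : ∀ i : Fin 16, ∀ᶠ z : E5 × E5 in 𝓝 (base t, v), i ∉ S → i ∉ Arg (orb z.1) z.2 := by
      intro i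
      by_cases hi : i ∈ S
      · exact Eventually.of_forall fun z h => absurd hi h
      · have h2 : i ∉ Arg (orb (base t)) v := fun h => hi (hvS h)
        rw [mem_arg_iff] at h2
        push Not at h2
        obtain ⟨j, hj⟩ := h2
        have h3 : ∀ᶠ z : E5 × E5 in 𝓝 (base t, v), val z.1 z.2 i < val z.1 z.2 j :=
          (continuous_val i).continuousAt.eventually_lt (continuous_val j).continuousAt hj
        filter_upwards [h3] with z hz _ hcon
        rw [mem_arg_iff] at hcon
        exact absurd (hcon j) (not_le.mpr hz)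
    have h2 := eventually_all.mpr h1
    filter_upwards [h2] with z hz
    refine ⟨S, hS, fun i hi => ?_⟩
    by_contra hcon
    exact hz i hcon hi
  filter_upwards [h] with w hw v hv
  have hpos : 0 < ‖v‖⁻¹ := inv_pos.mpr (norm_pos_iff.mpr hv)
  obtain ⟨S, hS, hvS⟩ := hw (‖v‖⁻¹ • v) (by
    rw [mem_sphere_zero_iff_norm, norm_smul, norm_inv, norm_norm,
      inv_mul_cancel₀ (norm_ne_zero_iff.mpr hv)])
  exact ⟨S, hS, by rwa [arg_smul_pos _ _ hpos] at hvS⟩

lemma near_eventually {t : ℝ} (ht : 0 < t) : ∀ᶠ w : E5 in 𝓝 (base t), Near w := by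
  have hs : 0 < √2 := by positivity
  have hs2 : √2 ^ 2 = 2 := Real.sq_sqrt (by norm_num)
  have e1 : n1 (base t) = 2 * t ^ 2 := by
    rw [n1, base_0, base_1]
    linear_combination t ^ 2 * hs2
  have e2 : n2 (base t) = 2 * t ^ 2 := by
    rw [n2, base_2, base_3]
    ring
  have e3 : RR (base t) = √2 * t ^ 2 := by
    rw [RR, base_0, base_1, base_2, base_3]
    ring
  have e4 : II (base t) = √2 * t ^ 2 := by
    rw [II, base_0, base_1, base_2, base_3]
    ring
  have key : ∀ f : E5 → ℝ, Continuous f → 0 < f (base t) → ∀ᶠ w : E5 in 𝓝 (base t), 0 < f w :=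
    fun f hf h0 => hf.continuousAt.eventually (lt_mem_nhds h0)
  have k0 := key (fun w => w 4) (by fun_prop) (by change 0 < base t 4; rw [base_4]; exact ht)
  have k1 := key (fun w => n1 w) (by unfold n1; fun_prop) (by rw [e1]; positivity)
  have k2 := key (fun w => n2 w) (by unfold n2; fun_prop) (by rw [e2]; positivity)
  have k3 := key (fun w => RR w) (by unfold RR; fun_prop) (by rw [e3]; positivity)
  have k4 := key (fun w => II w) (by unfold II; fun_prop) (by rw [e4]; positivity)
  have k5 := key (fun w => II w * (n1 w + n2 w) + RR w * (n1 w - n2 w))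
    (by unfold II RR n1 n2; fun_prop) (by rw [e1, e2, e3, e4, sub_self, mul_zero]; positivity)
  have k6 := key (fun w => RR w * (n1 w + n2 w) + II w * (n2 w - n1 w))
    (by unfold II RR n1 n2; fun_prop) (by rw [e1, e2, e3, e4, sub_self, mul_zero]; positivity)
  have k7 := key (fun w => RR w * (n1 w + n2 w) + II w * (n1 w - n2 w))
    (by unfold II RR n1 n2; fun_prop) (by rw [e1, e2, e3, e4, sub_self, mul_zero]; positivity)
  have k8 := key (fun w => II w * (n1 w + n2 w) + RR w * (n2 w - n1 w))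
    (by unfold II RR n1 n2; fun_prop) (by rw [e1, e2, e3, e4, sub_self, mul_zero]; positivity)
  filter_upwards [k0, k1, k2, k3, k4, k5, k6, k7, k8] with w h0 h1 h2 h3 h4 h5 h6 h7 h8
  exact ⟨h0, h1, h2, h3, h4, h5, h6, h7, h8⟩

lemma onCross_base (t : ℝ) : OnCross (base t) := by
  unfold OnCross RR II
  rw [base_0, base_1, base_2, base_3]
  ring

/-- The class of the base point near the base point. -/
lemma mem_class_iff {t : ℝ} (ht : 0 < t) (r : ℝ) : ∀ᶠ w : E5 in 𝓝 (base t),
    (w ∈ typeClass Gam r (base t) ↔ w ∈ Metric.sphere (0 : E5) r ∧ OnCross w) := by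
  have hn := near_eventually ht
  have hc := covered_eventually ht
  have hn0 : Near (base t) := hn.self_of_nhds
  have hc0 : Covered (base t) := hc.self_of_nhds
  have hb := onCross_base t
  filter_upwards [hn, hc] with w hw hcw
  unfold typeClass
  rw [mem_ofPred_eq, orbitPolytope_Gam, orbitPolytope_Gam]
  refine and_congr_right fun _ => ⟨fun h => ?_, fun h => ?_⟩
  · by_contra hcon
    rw [sameType_iff] at h
    obtain ⟨e⟩ := h
    exact not_hasCoatom hn0 hb hc0 (hasCoatom_congr e 5 (hasCoatom_off hw hcon))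
  · apply sameType_of_LS_eq
    rw [LS_cross hw h hcw, LS_cross hn0 hb hc0]

/-- A curve through the base point on the sphere and on the cross stays in the component of the
class. -/
lemma curve_mem {t : ℝ} (ht : 0 < t) (r : ℝ) {γ : ℝ → E5} (hγ : Continuous γ) (h0 : γ 0 = base t)
    (hs : ∀ s, γ s ∈ Metric.sphere (0 : E5) r) (hcr : ∀ s, OnCross (γ s)) :
    ∀ᶠ s in 𝓝 (0 : ℝ), γ s ∈ connectedComponentIn (typeClass Gam r (base t)) (base t) := by
  have h1 : ∀ᶠ s in 𝓝 (0 : ℝ), γ s ∈ typeClass Gam r (base t) := by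
    have h2 : Tendsto γ (𝓝 0) (𝓝 (base t)) := by
      have := hγ.tendsto 0
      rwa [h0] at this
    filter_upwards [h2.eventually (mem_class_iff ht r)] with s hs'
    exact hs'.mpr ⟨hs s, hcr s⟩
  obtain ⟨ε, hε, hball⟩ := Metric.eventually_nhds_iff_ball.mp h1
  have hpre : IsPreconnected (γ '' Metric.ball (0 : ℝ) ε) :=
    ((convex_ball (0 : ℝ) ε).isPreconnected).image γ hγ.continuousOn
  have hsub := hpre.subset_connectedComponentIn (x := base t) (F := typeClass Gam r (base t))
    ⟨0, Metric.mem_ball_self hε, h0⟩ (by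
      rintro _ ⟨s, hs, rfl⟩
      exact hball s hs)
  filter_upwards [Metric.ball_mem_nhds (0 : ℝ) hε] with s hs
  exact hsub ⟨s, hs, rfl⟩

/-- A general curve. -/
noncomputable def crv (t : ℝ) (P Q R : E5) (s : ℝ) : E5 :=
  t • (P + Real.cos s • Q + Real.sin s • R)

lemma crv_apply (t : ℝ) (P Q R : E5) (s : ℝ) (c : Fin 5) :
    crv t P Q R s c = t * (P c + Real.cos s * Q c + Real.sin s * R c) := rfl

lemma hasDerivAt_crv (t : ℝ) (P Q R : E5) : HasDerivAt (crv t P Q R) (t • R) 0 := by
  have h1 := (Real.hasDerivAt_cos 0).smul_const Q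
  have h2 := (Real.hasDerivAt_sin 0).smul_const R
  have h3 := ((h1.const_add P).add h2).const_smul t
  simp only [Real.sin_zero, Real.cos_zero, neg_zero, zero_smul, zero_add, one_smul] at h3
  exact h3

lemma continuous_crv (t : ℝ) (P Q R : E5) : Continuous (crv t P Q R) := by
  unfold crv
  fun_prop

lemma mem_sphere_of_sum {w : E5} {t : ℝ} (ht : 0 < t)
    (h : w 0 ^ 2 + w 1 ^ 2 + w 2 ^ 2 + w 3 ^ 2 + w 4 ^ 2 = 5 * t ^ 2) :
    w ∈ Metric.sphere (0 : E5) (t * √5) := by
  rw [mem_sphere_zero_iff_norm, EuclideanSpace.norm_eq, Fin.sum_univ_five]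
  simp only [Real.norm_eq_abs, sq_abs]
  rw [h, show 5 * t ^ 2 = (t * √5) ^ 2 by
    rw [mul_pow, Real.sq_sqrt (by norm_num : (0 : ℝ) ≤ 5)]; ring]
  exact Real.sqrt_sq (by positivity)

theorem main {t : ℝ} (ht : 0 < t) {n : WithTop ℕ∞} (hn : 1 ≤ n) :
    base t ∈ Metric.sphere (0 : E5) (t * √5) ∧ ¬ IsEmbeddedSubmanifold n
      (connectedComponentIn (typeClass Gam (t * √5) (base t)) (base t)) := by
  have hs : 0 < √2 := by positivity
  have hs2 : √2 ^ 2 = 2 := Real.sq_sqrt (by norm_num)
  have hbase : base t ∈ Metric.sphere (0 : E5) (t * √5) := by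
    apply mem_sphere_of_sum ht
    rw [base_0, base_1, base_2, base_3, base_4]
    linear_combination t ^ 2 * hs2
  refine ⟨hbase, ?_⟩
  obtain ⟨P1, p10, p11, p12, p13, p14⟩ := exists_vec √2 0 0 0 1
  obtain ⟨P2, p20, p21, p22, p23, p24⟩ := exists_vec 0 0 1 1 0
  obtain ⟨P3, p30, p31, p32, p33, p34⟩ := exists_vec 0 0 (-1) 1 0
  obtain ⟨Q1, q10, q11, q12, q13, q14⟩ := exists_vec 0 0 0 0 1
  obtain ⟨Q2, q20, q21, q22, q23, q24⟩ := exists_vec √2 0 1 1 0
  obtain ⟨Q3, q30, q31, q32, q33, q34⟩ := exists_vec (-√2) 0 1 1 0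
  -- the first curve
  have a0 : ∀ s, crv t P1 P2 P3 s 0 = t * √2 := fun s => by rw [crv_apply, p10, p20, p30]; ring
  have a1 : ∀ s, crv t P1 P2 P3 s 1 = 0 := fun s => by rw [crv_apply, p11, p21, p31]; ring
  have a2 : ∀ s, crv t P1 P2 P3 s 2 = t * (Real.cos s - Real.sin s) := fun s => by
    rw [crv_apply, p12, p22, p32]; ring
  have a3 : ∀ s, crv t P1 P2 P3 s 3 = t * (Real.cos s + Real.sin s) := fun s => by
    rw [crv_apply, p13, p23, p33]; ring
  have a4 : ∀ s, crv t P1 P2 P3 s 4 = t := fun s => by rw [crv_apply, p14, p24, p34]; ring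
  have ab : crv t P1 P2 P3 0 = base t := by
    ext k
    fin_cases k
    · change crv t P1 P2 P3 0 0 = base t 0
      rw [a0, base_0]
    · change crv t P1 P2 P3 0 1 = base t 1
      rw [a1, base_1]
    · change crv t P1 P2 P3 0 2 = base t 2
      rw [a2, base_2, Real.cos_zero, Real.sin_zero]; ring
    · change crv t P1 P2 P3 0 3 = base t 3
      rw [a3, base_3, Real.cos_zero, Real.sin_zero]; ring
    · change crv t P1 P2 P3 0 4 = base t 4
      rw [a4, base_4]
  -- the second curve
  have b0 : ∀ s, crv t Q1 Q2 Q3 s 0 = t * √2 * (Real.cos s - Real.sin s) := fun s => by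
    rw [crv_apply, q10, q20, q30]; ring
  have b1 : ∀ s, crv t Q1 Q2 Q3 s 1 = 0 := fun s => by rw [crv_apply, q11, q21, q31]; ring
  have b2 : ∀ s, crv t Q1 Q2 Q3 s 2 = t * (Real.cos s + Real.sin s) := fun s => by
    rw [crv_apply, q12, q22, q32]; ring
  have b3 : ∀ s, crv t Q1 Q2 Q3 s 3 = t * (Real.cos s + Real.sin s) := fun s => by
    rw [crv_apply, q13, q23, q33]; ring
  have b4 : ∀ s, crv t Q1 Q2 Q3 s 4 = t := fun s => by rw [crv_apply, q14, q24, q34]; ring
  have bb : crv t Q1 Q2 Q3 0 = base t := by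
    ext k
    fin_cases k
    · change crv t Q1 Q2 Q3 0 0 = base t 0
      rw [b0, base_0, Real.cos_zero, Real.sin_zero]; ring
    · change crv t Q1 Q2 Q3 0 1 = base t 1
      rw [b1, base_1]
    · change crv t Q1 Q2 Q3 0 2 = base t 2
      rw [b2, base_2, Real.cos_zero, Real.sin_zero]; ring
    · change crv t Q1 Q2 Q3 0 3 = base t 3
      rw [b3, base_3, Real.cos_zero, Real.sin_zero]; ring
    · change crv t Q1 Q2 Q3 0 4 = base t 4
      rw [b4, base_4]
  have m1 := curve_mem ht (t * √5) (continuous_crv t P1 P2 P3) ab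
    (fun s => mem_sphere_of_sum ht (by
      rw [a0, a1, a2, a3, a4]
      linear_combination t ^ 2 * hs2 + 2 * t ^ 2 * Real.cos_sq_add_sin_sq s))
    (fun s => by
      unfold OnCross RR II n1 n2
      rw [a0, a1, a2, a3]
      linear_combination (t * √2 * (t * (Real.cos s + Real.sin s)) -
        t * √2 * (t * (Real.cos s - Real.sin s))) * (2 * t ^ 2 * Real.cos_sq_add_sin_sq s
          - t ^ 2 * hs2))
  have m2 := curve_mem ht (t * √5) (continuous_crv t Q1 Q2 Q3) bb
    (fun s => mem_sphere_of_sum ht (by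
      rw [b0, b1, b2, b3, b4]
      linear_combination t ^ 2 * (Real.cos s - Real.sin s) ^ 2 * hs2
        + 4 * t ^ 2 * Real.cos_sq_add_sin_sq s))
    (fun s => by
      unfold OnCross RR II n1 n2
      rw [b0, b1, b2, b3]
      ring)
  -- the equations
  have c : ∀ k : Fin 5, HasFDerivAt (fun x : E5 => x k) (EuclideanSpace.proj k : E5 →L[ℝ] ℝ)
      (base t) := fun k => (EuclideanSpace.proj k : E5 →L[ℝ] ℝ).hasFDerivAt
  have hg1 := (((c 0).mul (c 0)).add ((c 1).mul (c 1))).sub (((c 2).mul (c 2)).add ((c 3).mul (c 3)))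
  have hg2 := (((c 0).mul (c 2)).add ((c 1).mul (c 3))).sub (((c 0).mul (c 3)).sub ((c 1).mul (c 2)))
  have hp : ∀ k : Fin 5, (EuclideanSpace.proj k : E5 →L[ℝ] ℝ) (t • P3 + t • Q3)
      = t * P3 k + t * Q3 k := fun k => rfl
  refine not_isEmbeddedSubmanifold ?_ hn hg1 hg2 ?_ (hasDerivAt_crv t P1 P2 P3)
    (hasDerivAt_crv t Q1 Q2 Q3) ab bb m1 m2 ?_ ?_
  · apply mem_connectedComponentIn
    have := (mem_class_iff ht (t * √5)).self_of_nhds
    exact this.mpr ⟨hbase, onCross_base t⟩
  · filter_upwards [mem_class_iff ht (t * √5)] with x hx hxM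
    have h1 := (hx.mp (connectedComponentIn_subset _ _ hxM)).2
    unfold OnCross RR II n1 n2 at h1
    simp only [Pi.add_apply, Pi.sub_apply, Pi.mul_apply]
    linear_combination h1
  · simp only [sub_apply, add_apply, smul_apply, hp, smul_eq_mul, p30, p31, p32, p33, q30, q31,
      q32, q33, base_0, base_1, base_2, base_3]
    intro h
    have h8 : 8 * t ^ 2 = 0 := by
      linear_combination (-1 : ℝ) * h - 2 * t ^ 2 * hs2
    have : 0 < 8 * t ^ 2 := by positivity
    linarith
  · simp only [sub_apply, add_apply, smul_apply, hp, smul_eq_mul, p30, p31, p32, p33, q30, q31,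
      q32, q33, base_0, base_1, base_2, base_3]
    intro h
    have h8 : 2 * √2 * t ^ 2 = 0 := by
      linear_combination (-1 : ℝ) * h
    have : 0 < 2 * √2 * t ^ 2 := by positivity
    linarith

end Pool.Agent.Helper78.OrbitPolytope
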