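import Pool.Agent.Helper78.OrbitPolytope.BaseCase

/-!
# Explicit functionals near the base point
-/

open Set
open scoped InnerProductSpace

set_option linter.unusedSimpArgs false

namespace Pool.Agent.Helper78.OrbitPolytope

/-- `|z₁|²` -/
def n1 (x : Fin 5 → ℝ) : ℝ := x 0 ^ 2 + x 1 ^ 2

/-- `|z₂|²` -/
def n2 (x : Fin 5 → ℝ) : ℝ := x 2 ^ 2 + x 3 ^ 2

/-- The real part of `z₂ / z₁` up to a factor. -/
def RR (x : Fin 5 → ℝ) : ℝ := x 0 * x 2 + x 1 * x 3

/-- The imaginary part of `z₂ / z₁` up to a factor. -/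
def II (x : Fin 5 → ℝ) : ℝ := x 0 * x 3 - x 1 * x 2

/-- Open conditions satisfied near the base point. -/
structure Near (x : Fin 5 → ℝ) : Prop where
  h : 0 < x 4
  n1_pos : 0 < n1 x
  n2_pos : 0 < n2 x
  R_pos : 0 < RR x
  I_pos : 0 < II x
  c1 : 0 < II x * (n1 x + n2 x) + RR x * (n1 x - n2 x)
  c2 : 0 < RR x * (n1 x + n2 x) + II x * (n2 x - n1 x)
  c3 : 0 < RR x * (n1 x + n2 x) + II x * (n1 x - n2 x)
  c4 : 0 < II x * (n1 x + n2 x) + RR x * (n2 x - n1 x)

lemma exists_vec (a b c d e : ℝ) :
    ∃ v : E5, v 0 = a ∧ v 1 = b ∧ v 2 = c ∧ v 3 = d ∧ v 4 = e :=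
  ⟨!₂[a, b, c, d, e], rfl, rfl, rfl, rfl, rfl⟩

lemma arg_eq_of {w v : E5} {T : Finset (Fin 16)} {M : ℝ} (hT : T.Nonempty)
    (h : ∀ i, (i ∈ T ∧ val w v i = M) ∨ (i ∉ T ∧ val w v i < M)) :
    Arg (orb w) v = (T : Set (Fin 16)) := by
  obtain ⟨k, hk⟩ := hT
  have hkM : val w v k = M := by
    rcases h k with h1 | h1
    · exact h1.2
    · exact absurd hk h1.1
  ext i
  rw [mem_arg_iff, Finset.mem_coe]
  constructor
  · intro hi
    rcases h i with h1 | h1
    · exact h1.1
    · have := hi k
      linarith [h1.2]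
  · intro hi j
    have hiM : val w v i = M := by
      rcases h i with h1 | h1
      · exact h1.2
      · exact absurd hi h1.1
    rw [hiM]
    rcases h j with h1 | h1
    · exact h1.2.le
    · exact h1.2.le

lemma forall16 (P : Fin 16 → Prop) (h0 : P 0) (h1 : P 1) (h2 : P 2) (h3 : P 3) (h4 : P 4)
    (h5 : P 5) (h6 : P 6) (h7 : P 7) (h8 : P 8) (h9 : P 9) (h10 : P 10) (h11 : P 11) (h12 : P 12)
    (h13 : P 13) (h14 : P 14) (h15 : P 15) : ∀ i, P i := by
  intro i
  fin_cases i <;> assumption

/-- The facet of all labels with even index. -/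
lemma arg_rep0 {w : E5} (hw : Near w) :
    ∃ v : E5, Arg (orb w) v =
      (({0, 2, 4, 6, 8, 10, 12, 14} : Finset (Fin 16)) : Set (Fin 16)) := by
  obtain ⟨v, v0, v1, v2, v3, v4⟩ := exists_vec 0 0 0 0 1
  have h := hw.h
  refine ⟨v, arg_eq_of (M := w 4) ⟨0, by decide⟩ fun i => ?_⟩
  revert i
  refine forall16 _ ?_ ?_ ?_ ?_ ?_ ?_ ?_ ?_ ?_ ?_ ?_ ?_ ?_ ?_ ?_ ?_
  · refine Or.inl ⟨by decide, ?_⟩
    rw [val_0, v0, v1, v2, v3, v4]
    ring
  · refine Or.inr ⟨by decide, ?_⟩
    rw [val_1, v0, v1, v2, v3, v4]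
    linarith
  · refine Or.inl ⟨by decide, ?_⟩
    rw [val_2, v0, v1, v2, v3, v4]
    ring
  · refine Or.inr ⟨by decide, ?_⟩
    rw [val_3, v0, v1, v2, v3, v4]
    linarith
  · refine Or.inl ⟨by decide, ?_⟩
    rw [val_4, v0, v1, v2, v3, v4]
    ring
  · refine Or.inr ⟨by decide, ?_⟩
    rw [val_5, v0, v1, v2, v3, v4]
    linarith
  · refine Or.inl ⟨by decide, ?_⟩
    rw [val_6, v0, v1, v2, v3, v4]
    ring
  · refine Or.inr ⟨by decide, ?_⟩
    rw [val_7, v0, v1, v2, v3, v4]
    linarith
  · refine Or.inl ⟨by decide, ?_⟩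
    rw [val_8, v0, v1, v2, v3, v4]
    ring
  · refine Or.inr ⟨by decide, ?_⟩
    rw [val_9, v0, v1, v2, v3, v4]
    linarith
  · refine Or.inl ⟨by decide, ?_⟩
    rw [val_10, v0, v1, v2, v3, v4]
    ring
  · refine Or.inr ⟨by decide, ?_⟩
    rw [val_11, v0, v1, v2, v3, v4]
    linarith
  · refine Or.inl ⟨by decide, ?_⟩
    rw [val_12, v0, v1, v2, v3, v4]
    ring
  · refine Or.inr ⟨by decide, ?_⟩
    rw [val_13, v0, v1, v2, v3, v4]
    linarith
  · refine Or.inl ⟨by decide, ?_⟩
    rw [val_14, v0, v1, v2, v3, v4]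
    ring
  · refine Or.inr ⟨by decide, ?_⟩
    rw [val_15, v0, v1, v2, v3, v4]
    linarith

/-- The facet with centres `(1, 1)`. -/
lemma arg_rep1 {w : E5} (hw : Near w) :
    ∃ v : E5, Arg (orb w) v = (({0, 1, 2, 8, 9, 10} : Finset (Fin 16)) : Set (Fin 16)) ∧ 0 < val w v 0 := by
  obtain ⟨h, hn1, hn2, hR, hI, hc1, hc2, hc3, hc4⟩ := hw
  obtain ⟨v, v0, v1, v2, v3, v4⟩ := exists_vec (2 * w 4 * (w 0 - w 1)) (2 * w 4 * (w 0 + w 1))
    (2 * w 4 * (0)) (2 * w 4 * (0)) ((RR w + II w) - n1 w)
  refine ⟨v, arg_eq_of (M := w 4 * ((RR w + II w) + n1 w)) ⟨0, by decide⟩ fun i => ?_, ?_⟩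
  · revert i
    refine forall16 _ ?_ ?_ ?_ ?_ ?_ ?_ ?_ ?_ ?_ ?_ ?_ ?_ ?_ ?_ ?_ ?_
    · refine Or.inl ⟨by decide, ?_⟩
      rw [val_0, v0, v1, v2, v3, v4]
      simp only [n1, n2, RR, II]
      ring
    · refine Or.inl ⟨by decide, ?_⟩
      rw [val_1, v0, v1, v2, v3, v4]
      simp only [n1, n2, RR, II]
      ring
    · refine Or.inl ⟨by decide, ?_⟩
      rw [val_2, v0, v1, v2, v3, v4]
      simp only [n1, n2, RR, II]
      ring
    · refine Or.inr ⟨by decide, ?_⟩
      have e : val w v 3 = w 4 * ((RR w + II w) + n1 w) - 2 * w 4 * (2 * II w) := by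
        rw [val_3, v0, v1, v2, v3, v4]
        simp only [n1, n2, RR, II]
        ring
      have e' : 0 < 2 * II w := by positivity
      rw [e]
      have := mul_pos (mul_pos two_pos h) e'
      linarith
    · refine Or.inr ⟨by decide, ?_⟩
      have e : val w v 4 = w 4 * ((RR w + II w) + n1 w) - 2 * w 4 * (2 * (n1 w)) := by
        rw [val_4, v0, v1, v2, v3, v4]
        simp only [n1, n2, RR, II]
        ring
      have e' : 0 < 2 * (n1 w) := by positivity
      rw [e]
      have := mul_pos (mul_pos two_pos h) e'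
      linarith
    · refine Or.inr ⟨by decide, ?_⟩
      have e : val w v 5 = w 4 * ((RR w + II w) + n1 w) - 2 * w 4 * (2 * (RR w + II w)) := by
        rw [val_5, v0, v1, v2, v3, v4]
        simp only [n1, n2, RR, II]
        ring
      have e' : 0 < 2 * (RR w + II w) := by positivity
      rw [e]
      have := mul_pos (mul_pos two_pos h) e'
      linarith
    · refine Or.inr ⟨by decide, ?_⟩
      have e : val w v 6 = w 4 * ((RR w + II w) + n1 w) - 2 * w 4 * (2 * (n1 w)) := by
        rw [val_6, v0, v1, v2, v3, v4]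
        simp only [n1, n2, RR, II]
        ring
      have e' : 0 < 2 * (n1 w) := by positivity
      rw [e]
      have := mul_pos (mul_pos two_pos h) e'
      linarith
    · refine Or.inr ⟨by decide, ?_⟩
      have e : val w v 7 = w 4 * ((RR w + II w) + n1 w) - 2 * w 4 * (2 * RR w) := by
        rw [val_7, v0, v1, v2, v3, v4]
        simp only [n1, n2, RR, II]
        ring
      have e' : 0 < 2 * RR w := by positivity
      rw [e]
      have := mul_pos (mul_pos two_pos h) e'
      linarith
    · refine Or.inl ⟨by decide, ?_⟩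
      rw [val_8, v0, v1, v2, v3, v4]
      simp only [n1, n2, RR, II]
      ring
    · refine Or.inl ⟨by decide, ?_⟩
      rw [val_9, v0, v1, v2, v3, v4]
      simp only [n1, n2, RR, II]
      ring
    · refine Or.inl ⟨by decide, ?_⟩
      rw [val_10, v0, v1, v2, v3, v4]
      simp only [n1, n2, RR, II]
      ring
    · refine Or.inr ⟨by decide, ?_⟩
      have e : val w v 11 = w 4 * ((RR w + II w) + n1 w) - 2 * w 4 * (2 * II w) := by
        rw [val_11, v0, v1, v2, v3, v4]
        simp only [n1, n2, RR, II]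
        ring
      have e' : 0 < 2 * II w := by positivity
      rw [e]
      have := mul_pos (mul_pos two_pos h) e'
      linarith
    · refine Or.inr ⟨by decide, ?_⟩
      have e : val w v 12 = w 4 * ((RR w + II w) + n1 w) - 2 * w 4 * (2 * (n1 w)) := by
        rw [val_12, v0, v1, v2, v3, v4]
        simp only [n1, n2, RR, II]
        ring
      have e' : 0 < 2 * (n1 w) := by positivity
      rw [e]
      have := mul_pos (mul_pos two_pos h) e'
      linarith
    · refine Or.inr ⟨by decide, ?_⟩
      have e : val w v 13 = w 4 * ((RR w + II w) + n1 w) - 2 * w 4 * (2 * (RR w + II w)) := by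
        rw [val_13, v0, v1, v2, v3, v4]
        simp only [n1, n2, RR, II]
        ring
      have e' : 0 < 2 * (RR w + II w) := by positivity
      rw [e]
      have := mul_pos (mul_pos two_pos h) e'
      linarith
    · refine Or.inr ⟨by decide, ?_⟩
      have e : val w v 14 = w 4 * ((RR w + II w) + n1 w) - 2 * w 4 * (2 * (n1 w)) := by
        rw [val_14, v0, v1, v2, v3, v4]
        simp only [n1, n2, RR, II]
        ring
      have e' : 0 < 2 * (n1 w) := by positivity
      rw [e]
      have := mul_pos (mul_pos two_pos h) e'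
      linarith
    · refine Or.inr ⟨by decide, ?_⟩
      have e : val w v 15 = w 4 * ((RR w + II w) + n1 w) - 2 * w 4 * (2 * RR w) := by
        rw [val_15, v0, v1, v2, v3, v4]
        simp only [n1, n2, RR, II]
        ring
      have e' : 0 < 2 * RR w := by positivity
      rw [e]
      have := mul_pos (mul_pos two_pos h) e'
      linarith
  · have e : val w v 0 = w 4 * ((RR w + II w) + n1 w) := by
      rw [val_0, v0, v1, v2, v3, v4]
      simp only [n1, n2, RR, II]
      ring
    rw [e]
    positivity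

/-- The facet with centres `(1, 5)`. -/
lemma arg_rep2 {w : E5} (hw : Near w) :
    ∃ v : E5, Arg (orb w) v = (({0, 1, 2, 12, 13, 14} : Finset (Fin 16)) : Set (Fin 16)) ∧ 0 < val w v 0 := by
  obtain ⟨h, hn1, hn2, hR, hI, hc1, hc2, hc3, hc4⟩ := hw
  obtain ⟨v, v0, v1, v2, v3, v4⟩ := exists_vec (2 * w 4 * (0)) (2 * w 4 * (0))
    (2 * w 4 * (w 2 + w 3)) (2 * w 4 * (w 3 - w 2)) ((RR w + II w) - n2 w)
  refine ⟨v, arg_eq_of (M := w 4 * ((RR w + II w) + n2 w)) ⟨0, by decide⟩ fun i => ?_, ?_⟩
  · revert i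
    refine forall16 _ ?_ ?_ ?_ ?_ ?_ ?_ ?_ ?_ ?_ ?_ ?_ ?_ ?_ ?_ ?_ ?_
    · refine Or.inl ⟨by decide, ?_⟩
      rw [val_0, v0, v1, v2, v3, v4]
      simp only [n1, n2, RR, II]
      ring
    · refine Or.inl ⟨by decide, ?_⟩
      rw [val_1, v0, v1, v2, v3, v4]
      simp only [n1, n2, RR, II]
      ring
    · refine Or.inl ⟨by decide, ?_⟩
      rw [val_2, v0, v1, v2, v3, v4]
      simp only [n1, n2, RR, II]
      ring
    · refine Or.inr ⟨by decide, ?_⟩
      have e : val w v 3 = w 4 * ((RR w + II w) + n2 w) - 2 * w 4 * (2 * II w) := by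
        rw [val_3, v0, v1, v2, v3, v4]
        simp only [n1, n2, RR, II]
        ring
      have e' : 0 < 2 * II w := by positivity
      rw [e]
      have := mul_pos (mul_pos two_pos h) e'
      linarith
    · refine Or.inr ⟨by decide, ?_⟩
      have e : val w v 4 = w 4 * ((RR w + II w) + n2 w) - 2 * w 4 * (2 * (n2 w)) := by
        rw [val_4, v0, v1, v2, v3, v4]
        simp only [n1, n2, RR, II]
        ring
      have e' : 0 < 2 * (n2 w) := by positivity
      rw [e]
      have := mul_pos (mul_pos two_pos h) e'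
      linarith
    · refine Or.inr ⟨by decide, ?_⟩
      have e : val w v 5 = w 4 * ((RR w + II w) + n2 w) - 2 * w 4 * (2 * (RR w + II w)) := by
        rw [val_5, v0, v1, v2, v3, v4]
        simp only [n1, n2, RR, II]
        ring
      have e' : 0 < 2 * (RR w + II w) := by positivity
      rw [e]
      have := mul_pos (mul_pos two_pos h) e'
      linarith
    · refine Or.inr ⟨by decide, ?_⟩
      have e : val w v 6 = w 4 * ((RR w + II w) + n2 w) - 2 * w 4 * (2 * (n2 w)) := by
        rw [val_6, v0, v1, v2, v3, v4]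
        simp only [n1, n2, RR, II]
        ring
      have e' : 0 < 2 * (n2 w) := by positivity
      rw [e]
      have := mul_pos (mul_pos two_pos h) e'
      linarith
    · refine Or.inr ⟨by decide, ?_⟩
      have e : val w v 7 = w 4 * ((RR w + II w) + n2 w) - 2 * w 4 * (2 * RR w) := by
        rw [val_7, v0, v1, v2, v3, v4]
        simp only [n1, n2, RR, II]
        ring
      have e' : 0 < 2 * RR w := by positivity
      rw [e]
      have := mul_pos (mul_pos two_pos h) e'
      linarith
    · refine Or.inr ⟨by decide, ?_⟩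
      have e : val w v 8 = w 4 * ((RR w + II w) + n2 w) - 2 * w 4 * (2 * (n2 w)) := by
        rw [val_8, v0, v1, v2, v3, v4]
        simp only [n1, n2, RR, II]
        ring
      have e' : 0 < 2 * (n2 w) := by positivity
      rw [e]
      have := mul_pos (mul_pos two_pos h) e'
      linarith
    · refine Or.inr ⟨by decide, ?_⟩
      have e : val w v 9 = w 4 * ((RR w + II w) + n2 w) - 2 * w 4 * (2 * (RR w + II w)) := by
        rw [val_9, v0, v1, v2, v3, v4]
        simp only [n1, n2, RR, II]
        ring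
      have e' : 0 < 2 * (RR w + II w) := by positivity
      rw [e]
      have := mul_pos (mul_pos two_pos h) e'
      linarith
    · refine Or.inr ⟨by decide, ?_⟩
      have e : val w v 10 = w 4 * ((RR w + II w) + n2 w) - 2 * w 4 * (2 * (n2 w)) := by
        rw [val_10, v0, v1, v2, v3, v4]
        simp only [n1, n2, RR, II]
        ring
      have e' : 0 < 2 * (n2 w) := by positivity
      rw [e]
      have := mul_pos (mul_pos two_pos h) e'
      linarith
    · refine Or.inr ⟨by decide, ?_⟩
      have e : val w v 11 = w 4 * ((RR w + II w) + n2 w) - 2 * w 4 * (2 * RR w) := by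
        rw [val_11, v0, v1, v2, v3, v4]
        simp only [n1, n2, RR, II]
        ring
      have e' : 0 < 2 * RR w := by positivity
      rw [e]
      have := mul_pos (mul_pos two_pos h) e'
      linarith
    · refine Or.inl ⟨by decide, ?_⟩
      rw [val_12, v0, v1, v2, v3, v4]
      simp only [n1, n2, RR, II]
      ring
    · refine Or.inl ⟨by decide, ?_⟩
      rw [val_13, v0, v1, v2, v3, v4]
      simp only [n1, n2, RR, II]
      ring
    · refine Or.inl ⟨by decide, ?_⟩
      rw [val_14, v0, v1, v2, v3, v4]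
      simp only [n1, n2, RR, II]
      ring
    · refine Or.inr ⟨by decide, ?_⟩
      have e : val w v 15 = w 4 * ((RR w + II w) + n2 w) - 2 * w 4 * (2 * II w) := by
        rw [val_15, v0, v1, v2, v3, v4]
        simp only [n1, n2, RR, II]
        ring
      have e' : 0 < 2 * II w := by positivity
      rw [e]
      have := mul_pos (mul_pos two_pos h) e'
      linarith
  · have e : val w v 0 = w 4 * ((RR w + II w) + n2 w) := by
      rw [val_0, v0, v1, v2, v3, v4]
      simp only [n1, n2, RR, II]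
      ring
    rw [e]
    positivity

/-- The facet with centres `(1, 3)`, on the cross. -/
lemma arg_rep3 {w : E5} (hw : Near w) (hcr : (II w * n2 w + RR w * n1 w) = (RR w * n2 w + II w * n1 w)) :
    ∃ v : E5, Arg (orb w) v = (({0, 1, 2, 10, 11, 12} : Finset (Fin 16)) : Set (Fin 16)) ∧ 0 < val w v 0 := by
  obtain ⟨h, hn1, hn2, hR, hI, hc1, hc2, hc3, hc4⟩ := hw
  obtain ⟨v, v0, v1, v2, v3, v4⟩ := exists_vec (2 * w 4 * (-w 1 * n2 w)) (2 * w 4 * (w 0 * n2 w))
    (2 * w 4 * (w 2 * n1 w)) (2 * w 4 * (w 3 * n1 w)) ((II w * n2 w + RR w * n1 w) - n1 w * n2 w)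
  refine ⟨v, arg_eq_of (M := w 4 * ((II w * n2 w + RR w * n1 w) + n1 w * n2 w)) ⟨0, by decide⟩ fun i => ?_, ?_⟩
  · revert i
    refine forall16 _ ?_ ?_ ?_ ?_ ?_ ?_ ?_ ?_ ?_ ?_ ?_ ?_ ?_ ?_ ?_ ?_
    · refine Or.inl ⟨by decide, ?_⟩
      rw [val_0, v0, v1, v2, v3, v4]
      simp only [n1, n2, RR, II]
      ring
    · refine Or.inl ⟨by decide, ?_⟩
      rw [val_1, v0, v1, v2, v3, v4]
      simp only [n1, n2, RR, II]
      ring
    · refine Or.inl ⟨by decide, ?_⟩
      rw [val_2, v0, v1, v2, v3, v4]
      simp only [n1, n2, RR, II]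
      ring
    · refine Or.inr ⟨by decide, ?_⟩
      have e : val w v 3 = w 4 * ((II w * n2 w + RR w * n1 w) + n1 w * n2 w) - 2 * w 4 * (II w * (n1 w + n2 w) + RR w * (n1 w - n2 w)) := by
        rw [val_3, v0, v1, v2, v3, v4]
        simp only [n1, n2, RR, II]
        ring
      have e' : 0 < II w * (n1 w + n2 w) + RR w * (n1 w - n2 w) := by exact hc1
      rw [e]
      have := mul_pos (mul_pos two_pos h) e'
      linarith
    · refine Or.inr ⟨by decide, ?_⟩
      have e : val w v 4 = w 4 * ((II w * n2 w + RR w * n1 w) + n1 w * n2 w) - 2 * w 4 * (2 * (n1 w * n2 w)) := by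
        rw [val_4, v0, v1, v2, v3, v4]
        simp only [n1, n2, RR, II]
        ring
      have e' : 0 < 2 * (n1 w * n2 w) := by positivity
      rw [e]
      have := mul_pos (mul_pos two_pos h) e'
      linarith
    · refine Or.inr ⟨by decide, ?_⟩
      have e : val w v 5 = w 4 * ((II w * n2 w + RR w * n1 w) + n1 w * n2 w) - 2 * w 4 * (2 * (II w * n2 w + RR w * n1 w)) := by
        rw [val_5, v0, v1, v2, v3, v4]
        simp only [n1, n2, RR, II]
        ring
      have e' : 0 < 2 * (II w * n2 w + RR w * n1 w) := by positivity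
      rw [e]
      have := mul_pos (mul_pos two_pos h) e'
      linarith
    · refine Or.inr ⟨by decide, ?_⟩
      have e : val w v 6 = w 4 * ((II w * n2 w + RR w * n1 w) + n1 w * n2 w) - 2 * w 4 * (2 * (n1 w * n2 w)) := by
        rw [val_6, v0, v1, v2, v3, v4]
        simp only [n1, n2, RR, II]
        ring
      have e' : 0 < 2 * (n1 w * n2 w) := by positivity
      rw [e]
      have := mul_pos (mul_pos two_pos h) e'
      linarith
    · refine Or.inr ⟨by decide, ?_⟩
      have e : val w v 7 = w 4 * ((II w * n2 w + RR w * n1 w) + n1 w * n2 w) - 2 * w 4 * (RR w * (n1 w + n2 w) + II w * (n2 w - n1 w)) := by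
        rw [val_7, v0, v1, v2, v3, v4]
        simp only [n1, n2, RR, II]
        ring
      have e' : 0 < RR w * (n1 w + n2 w) + II w * (n2 w - n1 w) := by exact hc2
      rw [e]
      have := mul_pos (mul_pos two_pos h) e'
      linarith
    · refine Or.inr ⟨by decide, ?_⟩
      have e : val w v 8 = w 4 * ((II w * n2 w + RR w * n1 w) + n1 w * n2 w) - 2 * w 4 * (2 * (n1 w * n2 w)) := by
        rw [val_8, v0, v1, v2, v3, v4]
        simp only [n1, n2, RR, II]
        ring
      have e' : 0 < 2 * (n1 w * n2 w) := by positivity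
      rw [e]
      have := mul_pos (mul_pos two_pos h) e'
      linarith
    · refine Or.inr ⟨by decide, ?_⟩
      have e : val w v 9 = w 4 * ((II w * n2 w + RR w * n1 w) + n1 w * n2 w) - 2 * w 4 * (2 * (RR w * n1 w)) := by
        rw [val_9, v0, v1, v2, v3, v4]
        simp only [n1, n2, RR, II]
        ring
      have e' : 0 < 2 * (RR w * n1 w) := by positivity
      rw [e]
      have := mul_pos (mul_pos two_pos h) e'
      linarith
    · refine Or.inl ⟨by decide, ?_⟩
      rw [val_10, v0, v1, v2, v3, v4]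
      simp only [n1, n2, RR, II]
      ring
    · refine Or.inl ⟨by decide, ?_⟩
      rw [val_11, v0, v1, v2, v3, v4]
      simp only [n1, n2, RR, II] at *
      linear_combination (-2 * w 4) * hcr
    · refine Or.inl ⟨by decide, ?_⟩
      rw [val_12, v0, v1, v2, v3, v4]
      simp only [n1, n2, RR, II]
      ring
    · refine Or.inr ⟨by decide, ?_⟩
      have e : val w v 13 = w 4 * ((II w * n2 w + RR w * n1 w) + n1 w * n2 w) - 2 * w 4 * (2 * (II w * n2 w)) := by
        rw [val_13, v0, v1, v2, v3, v4]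
        simp only [n1, n2, RR, II]
        ring
      have e' : 0 < 2 * (II w * n2 w) := by positivity
      rw [e]
      have := mul_pos (mul_pos two_pos h) e'
      linarith
    · refine Or.inr ⟨by decide, ?_⟩
      have e : val w v 14 = w 4 * ((II w * n2 w + RR w * n1 w) + n1 w * n2 w) - 2 * w 4 * (2 * (n1 w * n2 w)) := by
        rw [val_14, v0, v1, v2, v3, v4]
        simp only [n1, n2, RR, II]
        ring
      have e' : 0 < 2 * (n1 w * n2 w) := by positivity
      rw [e]
      have := mul_pos (mul_pos two_pos h) e'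
      linarith
    · refine Or.inr ⟨by decide, ?_⟩
      have e : val w v 15 = w 4 * ((II w * n2 w + RR w * n1 w) + n1 w * n2 w) - 2 * w 4 * ((II w * n2 w + RR w * n1 w) + (RR w * n2 w + II w * n1 w)) := by
        rw [val_15, v0, v1, v2, v3, v4]
        simp only [n1, n2, RR, II]
        ring
      have e' : 0 < (II w * n2 w + RR w * n1 w) + (RR w * n2 w + II w * n1 w) := by positivity
      rw [e]
      have := mul_pos (mul_pos two_pos h) e'
      linarith
  · have e : val w v 0 = w 4 * ((II w * n2 w + RR w * n1 w) + n1 w * n2 w) := by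
      rw [val_0, v0, v1, v2, v3, v4]
      simp only [n1, n2, RR, II]
      ring
    rw [e]
    positivity

/-- A simplex facet off the cross. -/
lemma arg_off1 {w : E5} (hw : Near w) (hcr : (RR w * n2 w + II w * n1 w) < (II w * n2 w + RR w * n1 w)) :
    ∃ v : E5, Arg (orb w) v = (({0, 1, 2, 10, 12} : Finset (Fin 16)) : Set (Fin 16)) ∧ 0 < val w v 0 := by
  obtain ⟨h, hn1, hn2, hR, hI, hc1, hc2, hc3, hc4⟩ := hw
  obtain ⟨v, v0, v1, v2, v3, v4⟩ := exists_vec (2 * w 4 * (-w 1 * n2 w)) (2 * w 4 * (w 0 * n2 w))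
    (2 * w 4 * (w 2 * n1 w)) (2 * w 4 * (w 3 * n1 w)) ((II w * n2 w + RR w * n1 w) - n1 w * n2 w)
  refine ⟨v, arg_eq_of (M := w 4 * ((II w * n2 w + RR w * n1 w) + n1 w * n2 w)) ⟨0, by decide⟩ fun i => ?_, ?_⟩
  · revert i
    refine forall16 _ ?_ ?_ ?_ ?_ ?_ ?_ ?_ ?_ ?_ ?_ ?_ ?_ ?_ ?_ ?_ ?_
    · refine Or.inl ⟨by decide, ?_⟩
      rw [val_0, v0, v1, v2, v3, v4]
      simp only [n1, n2, RR, II]
      ring
    · refine Or.inl ⟨by decide, ?_⟩
      rw [val_1, v0, v1, v2, v3, v4]
      simp only [n1, n2, RR, II]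
      ring
    · refine Or.inl ⟨by decide, ?_⟩
      rw [val_2, v0, v1, v2, v3, v4]
      simp only [n1, n2, RR, II]
      ring
    · refine Or.inr ⟨by decide, ?_⟩
      have e : val w v 3 = w 4 * ((II w * n2 w + RR w * n1 w) + n1 w * n2 w) - 2 * w 4 * (II w * (n1 w + n2 w) + RR w * (n1 w - n2 w)) := by
        rw [val_3, v0, v1, v2, v3, v4]
        simp only [n1, n2, RR, II]
        ring
      have e' : 0 < II w * (n1 w + n2 w) + RR w * (n1 w - n2 w) := by exact hc1
      rw [e]
      have := mul_pos (mul_pos two_pos h) e'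
      linarith
    · refine Or.inr ⟨by decide, ?_⟩
      have e : val w v 4 = w 4 * ((II w * n2 w + RR w * n1 w) + n1 w * n2 w) - 2 * w 4 * (2 * (n1 w * n2 w)) := by
        rw [val_4, v0, v1, v2, v3, v4]
        simp only [n1, n2, RR, II]
        ring
      have e' : 0 < 2 * (n1 w * n2 w) := by positivity
      rw [e]
      have := mul_pos (mul_pos two_pos h) e'
      linarith
    · refine Or.inr ⟨by decide, ?_⟩
      have e : val w v 5 = w 4 * ((II w * n2 w + RR w * n1 w) + n1 w * n2 w) - 2 * w 4 * (2 * (II w * n2 w + RR w * n1 w)) := by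
        rw [val_5, v0, v1, v2, v3, v4]
        simp only [n1, n2, RR, II]
        ring
      have e' : 0 < 2 * (II w * n2 w + RR w * n1 w) := by positivity
      rw [e]
      have := mul_pos (mul_pos two_pos h) e'
      linarith
    · refine Or.inr ⟨by decide, ?_⟩
      have e : val w v 6 = w 4 * ((II w * n2 w + RR w * n1 w) + n1 w * n2 w) - 2 * w 4 * (2 * (n1 w * n2 w)) := by
        rw [val_6, v0, v1, v2, v3, v4]
        simp only [n1, n2, RR, II]
        ring
      have e' : 0 < 2 * (n1 w * n2 w) := by positivity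
      rw [e]
      have := mul_pos (mul_pos two_pos h) e'
      linarith
    · refine Or.inr ⟨by decide, ?_⟩
      have e : val w v 7 = w 4 * ((II w * n2 w + RR w * n1 w) + n1 w * n2 w) - 2 * w 4 * (RR w * (n1 w + n2 w) + II w * (n2 w - n1 w)) := by
        rw [val_7, v0, v1, v2, v3, v4]
        simp only [n1, n2, RR, II]
        ring
      have e' : 0 < RR w * (n1 w + n2 w) + II w * (n2 w - n1 w) := by exact hc2
      rw [e]
      have := mul_pos (mul_pos two_pos h) e'
      linarith
    · refine Or.inr ⟨by decide, ?_⟩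
      have e : val w v 8 = w 4 * ((II w * n2 w + RR w * n1 w) + n1 w * n2 w) - 2 * w 4 * (2 * (n1 w * n2 w)) := by
        rw [val_8, v0, v1, v2, v3, v4]
        simp only [n1, n2, RR, II]
        ring
      have e' : 0 < 2 * (n1 w * n2 w) := by positivity
      rw [e]
      have := mul_pos (mul_pos two_pos h) e'
      linarith
    · refine Or.inr ⟨by decide, ?_⟩
      have e : val w v 9 = w 4 * ((II w * n2 w + RR w * n1 w) + n1 w * n2 w) - 2 * w 4 * (2 * (RR w * n1 w)) := by
        rw [val_9, v0, v1, v2, v3, v4]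
        simp only [n1, n2, RR, II]
        ring
      have e' : 0 < 2 * (RR w * n1 w) := by positivity
      rw [e]
      have := mul_pos (mul_pos two_pos h) e'
      linarith
    · refine Or.inl ⟨by decide, ?_⟩
      rw [val_10, v0, v1, v2, v3, v4]
      simp only [n1, n2, RR, II]
      ring
    · refine Or.inr ⟨by decide, ?_⟩
      have e : val w v 11 = w 4 * ((II w * n2 w + RR w * n1 w) + n1 w * n2 w) - 2 * w 4 * ((II w * n2 w + RR w * n1 w) - (RR w * n2 w + II w * n1 w)) := by
        rw [val_11, v0, v1, v2, v3, v4]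
        simp only [n1, n2, RR, II]
        ring
      have e' : 0 < (II w * n2 w + RR w * n1 w) - (RR w * n2 w + II w * n1 w) := by linarith
      rw [e]
      have := mul_pos (mul_pos two_pos h) e'
      linarith
    · refine Or.inl ⟨by decide, ?_⟩
      rw [val_12, v0, v1, v2, v3, v4]
      simp only [n1, n2, RR, II]
      ring
    · refine Or.inr ⟨by decide, ?_⟩
      have e : val w v 13 = w 4 * ((II w * n2 w + RR w * n1 w) + n1 w * n2 w) - 2 * w 4 * (2 * (II w * n2 w)) := by
        rw [val_13, v0, v1, v2, v3, v4]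
        simp only [n1, n2, RR, II]
        ring
      have e' : 0 < 2 * (II w * n2 w) := by positivity
      rw [e]
      have := mul_pos (mul_pos two_pos h) e'
      linarith
    · refine Or.inr ⟨by decide, ?_⟩
      have e : val w v 14 = w 4 * ((II w * n2 w + RR w * n1 w) + n1 w * n2 w) - 2 * w 4 * (2 * (n1 w * n2 w)) := by
        rw [val_14, v0, v1, v2, v3, v4]
        simp only [n1, n2, RR, II]
        ring
      have e' : 0 < 2 * (n1 w * n2 w) := by positivity
      rw [e]
      have := mul_pos (mul_pos two_pos h) e'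
      linarith
    · refine Or.inr ⟨by decide, ?_⟩
      have e : val w v 15 = w 4 * ((II w * n2 w + RR w * n1 w) + n1 w * n2 w) - 2 * w 4 * ((II w * n2 w + RR w * n1 w) + (RR w * n2 w + II w * n1 w)) := by
        rw [val_15, v0, v1, v2, v3, v4]
        simp only [n1, n2, RR, II]
        ring
      have e' : 0 < (II w * n2 w + RR w * n1 w) + (RR w * n2 w + II w * n1 w) := by positivity
      rw [e]
      have := mul_pos (mul_pos two_pos h) e'
      linarith
  · have e : val w v 0 = w 4 * ((II w * n2 w + RR w * n1 w) + n1 w * n2 w) := by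
      rw [val_0, v0, v1, v2, v3, v4]
      simp only [n1, n2, RR, II]
      ring
    rw [e]
    positivity

/-- A simplex facet off the cross. -/
lemma arg_off2 {w : E5} (hw : Near w) (hcr : (II w * n2 w + RR w * n1 w) < (RR w * n2 w + II w * n1 w)) :
    ∃ v : E5, Arg (orb w) v = (({0, 2, 10, 11, 12} : Finset (Fin 16)) : Set (Fin 16)) ∧ 0 < val w v 0 := by
  obtain ⟨h, hn1, hn2, hR, hI, hc1, hc2, hc3, hc4⟩ := hw
  obtain ⟨v, v0, v1, v2, v3, v4⟩ := exists_vec (2 * w 4 * (-w 1 * n2 w)) (2 * w 4 * (w 0 * n2 w))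
    (2 * w 4 * (w 2 * n1 w)) (2 * w 4 * (w 3 * n1 w)) ((RR w * n2 w + II w * n1 w) - n1 w * n2 w)
  refine ⟨v, arg_eq_of (M := w 4 * ((RR w * n2 w + II w * n1 w) + n1 w * n2 w)) ⟨0, by decide⟩ fun i => ?_, ?_⟩
  · revert i
    refine forall16 _ ?_ ?_ ?_ ?_ ?_ ?_ ?_ ?_ ?_ ?_ ?_ ?_ ?_ ?_ ?_ ?_
    · refine Or.inl ⟨by decide, ?_⟩
      rw [val_0, v0, v1, v2, v3, v4]
      simp only [n1, n2, RR, II]
      ring
    · refine Or.inr ⟨by decide, ?_⟩
      have e : val w v 1 = w 4 * ((RR w * n2 w + II w * n1 w) + n1 w * n2 w) - 2 * w 4 * ((RR w * n2 w + II w * n1 w) - (II w * n2 w + RR w * n1 w)) := by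
        rw [val_1, v0, v1, v2, v3, v4]
        simp only [n1, n2, RR, II]
        ring
      have e' : 0 < (RR w * n2 w + II w * n1 w) - (II w * n2 w + RR w * n1 w) := by linarith
      rw [e]
      have := mul_pos (mul_pos two_pos h) e'
      linarith
    · refine Or.inl ⟨by decide, ?_⟩
      rw [val_2, v0, v1, v2, v3, v4]
      simp only [n1, n2, RR, II]
      ring
    · refine Or.inr ⟨by decide, ?_⟩
      have e : val w v 3 = w 4 * ((RR w * n2 w + II w * n1 w) + n1 w * n2 w) - 2 * w 4 * (2 * (II w * n1 w)) := by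
        rw [val_3, v0, v1, v2, v3, v4]
        simp only [n1, n2, RR, II]
        ring
      have e' : 0 < 2 * (II w * n1 w) := by positivity
      rw [e]
      have := mul_pos (mul_pos two_pos h) e'
      linarith
    · refine Or.inr ⟨by decide, ?_⟩
      have e : val w v 4 = w 4 * ((RR w * n2 w + II w * n1 w) + n1 w * n2 w) - 2 * w 4 * (2 * (n1 w * n2 w)) := by
        rw [val_4, v0, v1, v2, v3, v4]
        simp only [n1, n2, RR, II]
        ring
      have e' : 0 < 2 * (n1 w * n2 w) := by positivity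
      rw [e]
      have := mul_pos (mul_pos two_pos h) e'
      linarith
    · refine Or.inr ⟨by decide, ?_⟩
      have e : val w v 5 = w 4 * ((RR w * n2 w + II w * n1 w) + n1 w * n2 w) - 2 * w 4 * ((II w * n2 w + RR w * n1 w) + (RR w * n2 w + II w * n1 w)) := by
        rw [val_5, v0, v1, v2, v3, v4]
        simp only [n1, n2, RR, II]
        ring
      have e' : 0 < (II w * n2 w + RR w * n1 w) + (RR w * n2 w + II w * n1 w) := by positivity
      rw [e]
      have := mul_pos (mul_pos two_pos h) e'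
      linarith
    · refine Or.inr ⟨by decide, ?_⟩
      have e : val w v 6 = w 4 * ((RR w * n2 w + II w * n1 w) + n1 w * n2 w) - 2 * w 4 * (2 * (n1 w * n2 w)) := by
        rw [val_6, v0, v1, v2, v3, v4]
        simp only [n1, n2, RR, II]
        ring
      have e' : 0 < 2 * (n1 w * n2 w) := by positivity
      rw [e]
      have := mul_pos (mul_pos two_pos h) e'
      linarith
    · refine Or.inr ⟨by decide, ?_⟩
      have e : val w v 7 = w 4 * ((RR w * n2 w + II w * n1 w) + n1 w * n2 w) - 2 * w 4 * (2 * (RR w * n2 w)) := by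
        rw [val_7, v0, v1, v2, v3, v4]
        simp only [n1, n2, RR, II]
        ring
      have e' : 0 < 2 * (RR w * n2 w) := by positivity
      rw [e]
      have := mul_pos (mul_pos two_pos h) e'
      linarith
    · refine Or.inr ⟨by decide, ?_⟩
      have e : val w v 8 = w 4 * ((RR w * n2 w + II w * n1 w) + n1 w * n2 w) - 2 * w 4 * (2 * (n1 w * n2 w)) := by
        rw [val_8, v0, v1, v2, v3, v4]
        simp only [n1, n2, RR, II]
        ring
      have e' : 0 < 2 * (n1 w * n2 w) := by positivity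
      rw [e]
      have := mul_pos (mul_pos two_pos h) e'
      linarith
    · refine Or.inr ⟨by decide, ?_⟩
      have e : val w v 9 = w 4 * ((RR w * n2 w + II w * n1 w) + n1 w * n2 w) - 2 * w 4 * (RR w * (n1 w + n2 w) + II w * (n1 w - n2 w)) := by
        rw [val_9, v0, v1, v2, v3, v4]
        simp only [n1, n2, RR, II]
        ring
      have e' : 0 < RR w * (n1 w + n2 w) + II w * (n1 w - n2 w) := by exact hc3
      rw [e]
      have := mul_pos (mul_pos two_pos h) e'
      linarith
    · refine Or.inl ⟨by decide, ?_⟩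
      rw [val_10, v0, v1, v2, v3, v4]
      simp only [n1, n2, RR, II]
      ring
    · refine Or.inl ⟨by decide, ?_⟩
      rw [val_11, v0, v1, v2, v3, v4]
      simp only [n1, n2, RR, II]
      ring
    · refine Or.inl ⟨by decide, ?_⟩
      rw [val_12, v0, v1, v2, v3, v4]
      simp only [n1, n2, RR, II]
      ring
    · refine Or.inr ⟨by decide, ?_⟩
      have e : val w v 13 = w 4 * ((RR w * n2 w + II w * n1 w) + n1 w * n2 w) - 2 * w 4 * (II w * (n1 w + n2 w) + RR w * (n2 w - n1 w)) := by
        rw [val_13, v0, v1, v2, v3, v4]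
        simp only [n1, n2, RR, II]
        ring
      have e' : 0 < II w * (n1 w + n2 w) + RR w * (n2 w - n1 w) := by exact hc4
      rw [e]
      have := mul_pos (mul_pos two_pos h) e'
      linarith
    · refine Or.inr ⟨by decide, ?_⟩
      have e : val w v 14 = w 4 * ((RR w * n2 w + II w * n1 w) + n1 w * n2 w) - 2 * w 4 * (2 * (n1 w * n2 w)) := by
        rw [val_14, v0, v1, v2, v3, v4]
        simp only [n1, n2, RR, II]
        ring
      have e' : 0 < 2 * (n1 w * n2 w) := by positivity
      rw [e]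
      have := mul_pos (mul_pos two_pos h) e'
      linarith
    · refine Or.inr ⟨by decide, ?_⟩
      have e : val w v 15 = w 4 * ((RR w * n2 w + II w * n1 w) + n1 w * n2 w) - 2 * w 4 * (2 * (RR w * n2 w + II w * n1 w)) := by
        rw [val_15, v0, v1, v2, v3, v4]
        simp only [n1, n2, RR, II]
        ring
      have e' : 0 < 2 * (RR w * n2 w + II w * n1 w) := by positivity
      rw [e]
      have := mul_pos (mul_pos two_pos h) e'
      linarith
  · have e : val w v 0 = w 4 * ((RR w * n2 w + II w * n1 w) + n1 w * n2 w) := by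
      rw [val_0, v0, v1, v2, v3, v4]
      simp only [n1, n2, RR, II]
      ring
    rw [e]
    positivity

end Pool.Agent.Helper78.OrbitPolytope
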