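import Pool.Agent.Helper78.OrbitPolytope.Faces

/-!
# The Pauli group of order 16 acting on five-dimensional space
-/

open Set
open scoped InnerProductSpace

namespace Pool.Agent.Helper78.OrbitPolytope

/-- The Euclidean space of dimension five. -/
abbrev E5 : Type := EuclideanSpace ℝ (Fin 5)

/-- The permutations of the coordinates. -/
def perm : Fin 16 → Fin 5 → Fin 5 :=
  ![![0, 1, 2, 3, 4], ![2, 3, 0, 1, 4], ![1, 0, 3, 2, 4], ![3, 2, 1, 0, 4], ![0, 1, 2, 3, 4],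
    ![2, 3, 0, 1, 4], ![1, 0, 3, 2, 4], ![3, 2, 1, 0, 4], ![0, 1, 2, 3, 4], ![2, 3, 0, 1, 4],
    ![1, 0, 3, 2, 4], ![3, 2, 1, 0, 4], ![0, 1, 2, 3, 4], ![2, 3, 0, 1, 4], ![1, 0, 3, 2, 4],
    ![3, 2, 1, 0, 4]]

/-- The signs of the coordinates. -/
def sgn : Fin 16 → Fin 5 → ℤ :=
  ![![1, 1, 1, 1, 1], ![1, 1, 1, 1, -1], ![-1, 1, 1, -1, 1], ![-1, 1, 1, -1, -1],
    ![-1, -1, -1, -1, 1], ![-1, -1, -1, -1, -1], ![1, -1, -1, 1, 1], ![1, -1, -1, 1, -1],
    ![1, 1, -1, -1, 1], ![1, 1, -1, -1, -1], ![-1, 1, -1, 1, 1], ![-1, 1, -1, 1, -1],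
    ![-1, -1, 1, 1, 1], ![-1, -1, 1, 1, -1], ![1, -1, 1, -1, 1], ![1, -1, 1, -1, -1]]

/-- The multiplication table. -/
def mulT : Fin 16 → Fin 16 → Fin 16 :=
  ![![0, 1, 2, 3, 4, 5, 6, 7, 8, 9, 10, 11, 12, 13, 14, 15],
    ![1, 0, 7, 6, 5, 4, 3, 2, 13, 12, 11, 10, 9, 8, 15, 14],
    ![2, 3, 4, 5, 6, 7, 0, 1, 10, 11, 12, 13, 14, 15, 8, 9],
    ![3, 2, 1, 0, 7, 6, 5, 4, 15, 14, 13, 12, 11, 10, 9, 8],
    ![4, 5, 6, 7, 0, 1, 2, 3, 12, 13, 14, 15, 8, 9, 10, 11],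
    ![5, 4, 3, 2, 1, 0, 7, 6, 9, 8, 15, 14, 13, 12, 11, 10],
    ![6, 7, 0, 1, 2, 3, 4, 5, 14, 15, 8, 9, 10, 11, 12, 13],
    ![7, 6, 5, 4, 3, 2, 1, 0, 11, 10, 9, 8, 15, 14, 13, 12],
    ![8, 9, 10, 11, 12, 13, 14, 15, 0, 1, 2, 3, 4, 5, 6, 7],
    ![9, 8, 15, 14, 13, 12, 11, 10, 5, 4, 3, 2, 1, 0, 7, 6],
    ![10, 11, 12, 13, 14, 15, 8, 9, 2, 3, 4, 5, 6, 7, 0, 1],
    ![11, 10, 9, 8, 15, 14, 13, 12, 7, 6, 5, 4, 3, 2, 1, 0],
    ![12, 13, 14, 15, 8, 9, 10, 11, 4, 5, 6, 7, 0, 1, 2, 3],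
    ![13, 12, 11, 10, 9, 8, 15, 14, 1, 0, 7, 6, 5, 4, 3, 2],
    ![14, 15, 8, 9, 10, 11, 12, 13, 6, 7, 0, 1, 2, 3, 4, 5],
    ![15, 14, 13, 12, 11, 10, 9, 8, 3, 2, 1, 0, 7, 6, 5, 4]]

/-- The inverses. -/
def invT : Fin 16 → Fin 16 := ![0, 1, 6, 3, 4, 5, 2, 7, 8, 13, 14, 15, 12, 9, 10, 11]

lemma perm_mulT : ∀ i j c, perm (mulT i j) c = perm j (perm i c) := by decide +kernel

lemma sgn_mulT : ∀ i j c, sgn (mulT i j) c = sgn i c * sgn j (perm i c) := by decide +kernel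

lemma perm_perm : ∀ i c, perm i (perm i c) = c := by decide +kernel

lemma sgn_mul_self : ∀ i c, sgn i c * sgn i c = 1 := by decide +kernel

lemma mulT_invT : ∀ i, mulT i (invT i) = 0 := by decide +kernel

lemma invT_mulT : ∀ i, mulT (invT i) i = 0 := by decide +kernel

lemma mulT_assoc : ∀ i j k, mulT (mulT i j) k = mulT i (mulT j k) := by decide +kernel

lemma zero_mulT : ∀ i, mulT 0 i = i := by decide +kernel

/-- The images of the points under the elements of the group. -/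
noncomputable def pt (i : Fin 16) (w : E5) : E5 :=
  WithLp.toLp 2 fun c => (sgn i c : ℝ) * w (perm i c)

lemma pt_apply (i : Fin 16) (w : E5) (c : Fin 5) : pt i w c = (sgn i c : ℝ) * w (perm i c) := rfl

lemma pt_pt (i j : Fin 16) (w : E5) : pt i (pt j w) = pt (mulT i j) w := by
  ext c
  simp only [pt_apply, perm_mulT, sgn_mulT, Int.cast_mul]
  ring

lemma pt_zero (w : E5) : pt 0 w = w := by
  ext c
  rw [pt_apply]
  have h1 : ∀ c, perm 0 c = c := by decide +kernel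
  have h2 : ∀ c, sgn 0 c = 1 := by decide +kernel
  rw [h1, h2]
  simp

lemma norm_pt (i : Fin 16) (w : E5) : ‖pt i w‖ = ‖w‖ := by
  rw [EuclideanSpace.norm_eq, EuclideanSpace.norm_eq]
  congr 1
  have hinv : Function.Involutive (perm i) := perm_perm i
  rw [← Equiv.sum_comp hinv.toPerm]
  refine Finset.sum_congr rfl fun c _ => ?_
  have h1 : (sgn i (perm i c) : ℝ) * (sgn i (perm i c) : ℝ) = 1 := by
    exact_mod_cast sgn_mul_self i (perm i c)
  change ‖pt i w (perm i c)‖ ^ 2 = _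
  rw [pt_apply, perm_perm, Real.norm_eq_abs, Real.norm_eq_abs, sq_abs, sq_abs]
  linear_combination (w c ^ 2) * h1

/-- The elements of the group as linear isometries. -/
noncomputable def gel (i : Fin 16) : E5 ≃ₗᵢ[ℝ] E5 :=
  LinearIsometry.toLinearIsometryEquiv
    { toFun := pt i
      map_add' := fun v w => by
        ext c
        simp only [pt_apply, PiLp.add_apply]
        ring
      map_smul' := fun a w => by
        ext c
        simp only [pt_apply, PiLp.smul_apply, smul_eq_mul, RingHom.id_apply]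
        ring
      norm_map' := norm_pt i } rfl

lemma gel_apply (i : Fin 16) (w : E5) : gel i w = pt i w := rfl

lemma gel_mul (i j : Fin 16) : gel i * gel j = gel (mulT i j) := by
  ext1 w
  change gel i (gel j w) = _
  rw [gel_apply, gel_apply, gel_apply, pt_pt]

lemma gel_zero : gel 0 = 1 := by
  ext1 w
  rw [gel_apply, pt_zero]
  rfl

lemma inner_pt_pt (i : Fin 16) (v w : E5) : ⟪pt i v, pt i w⟫_ℝ = ⟪v, w⟫_ℝ := by
  rw [← gel_apply, ← gel_apply, LinearIsometryEquiv.inner_map_map]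

lemma pt_smul (i : Fin 16) (a : ℝ) (w : E5) : pt i (a • w) = a • pt i w := by
  rw [← gel_apply, ← gel_apply, map_smul]

/-- The group. -/
noncomputable def Gam : Subgroup (E5 ≃ₗᵢ[ℝ] E5) where
  carrier := range gel
  mul_mem' := by
    rintro _ _ ⟨i, rfl⟩ ⟨j, rfl⟩
    exact ⟨mulT i j, (gel_mul i j).symm⟩
  one_mem' := ⟨0, gel_zero⟩
  inv_mem' := by
    rintro _ ⟨i, rfl⟩
    refine ⟨invT i, ?_⟩
    rw [eq_inv_iff_mul_eq_one, gel_mul, invT_mulT, gel_zero]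

lemma finite_Gam : (Gam : Set (E5 ≃ₗᵢ[ℝ] E5)).Finite := finite_range gel

/-- The points of the orbit. -/
noncomputable def orb (w : E5) (i : Fin 16) : E5 := pt i w

lemma orbitPolytope_Gam (w : E5) : orbitPolytope Gam w = convexHull ℝ (range (orb w)) := by
  unfold orbitPolytope
  congr 1
  ext x
  constructor
  · rintro ⟨g, ⟨i, rfl⟩, rfl⟩
    exact ⟨i, rfl⟩
  · rintro ⟨i, rfl⟩
    exact ⟨gel i, ⟨i, rfl⟩, rfl⟩

/-- The family of label sets of faces is invariant under the group. -/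
lemma arg_pt (w v : E5) (g : Fin 16) : Arg (orb w) (pt g v) = mulT g '' Arg (orb w) v := by
  have key : ∀ i, ⟪pt g v, orb w (mulT g i)⟫_ℝ = ⟪v, orb w i⟫_ℝ := by
    intro i
    unfold orb
    rw [← pt_pt, inner_pt_pt]
  have hsurj : ∀ i, mulT g (mulT (invT g) i) = i := by
    intro i
    rw [← mulT_assoc, mulT_invT, zero_mulT]
  ext i
  constructor
  · intro hi
    refine ⟨mulT (invT g) i, fun j => ?_, hsurj i⟩
    have := hi (mulT g j)
    rw [key] at this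
    rwa [← key (mulT (invT g) i), hsurj]
  · rintro ⟨k, hk, rfl⟩ j
    rw [key, ← hsurj j, key]
    exact hk _

end Pool.Agent.Helper78.OrbitPolytope
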