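import Pool.Agent.Helper78.OrbitPolytope.Functionals

/-!
# The face lattices near the base point
-/

open Set
open scoped InnerProductSpace

namespace Pool.Agent.Helper78.OrbitPolytope

lemma arg_self {w : E5} (hw : Near w) :
    Arg (orb w) w = (({0} : Finset (Fin 16)) : Set (Fin 16)) := by
  obtain ⟨h, hn1, hn2, -, -, -, -, -, -⟩ := hw
  simp only [n1, n2] at hn1 hn2
  have hh := mul_pos h h
  have s1 := sq_nonneg (w 0 - w 2)
  have s2 := sq_nonneg (w 1 - w 3)
  have s3 := sq_nonneg (w 0 + w 2)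
  have s4 := sq_nonneg (w 1 + w 3)
  have s5 := sq_nonneg (w 0 - w 3)
  have s6 := sq_nonneg (w 1 + w 2)
  have s7 := sq_nonneg (w 0 + w 3)
  have s8 := sq_nonneg (w 1 - w 2)
  apply arg_eq_of (M := val w w 0) ⟨0, by decide⟩
  refine forall16 _ ?_ ?_ ?_ ?_ ?_ ?_ ?_ ?_ ?_ ?_ ?_ ?_ ?_ ?_ ?_ ?_
  · exact Or.inl ⟨by decide, rfl⟩
  · exact Or.inr ⟨by decide, by rw [val_0, val_1]; linarith⟩
  · exact Or.inr ⟨by decide, by rw [val_0, val_2]; linarith⟩
  · exact Or.inr ⟨by decide, by rw [val_0, val_3]; linarith⟩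
  · exact Or.inr ⟨by decide, by rw [val_0, val_4]; linarith⟩
  · exact Or.inr ⟨by decide, by rw [val_0, val_5]; linarith⟩
  · exact Or.inr ⟨by decide, by rw [val_0, val_6]; linarith⟩
  · exact Or.inr ⟨by decide, by rw [val_0, val_7]; linarith⟩
  · exact Or.inr ⟨by decide, by rw [val_0, val_8]; linarith⟩
  · exact Or.inr ⟨by decide, by rw [val_0, val_9]; linarith⟩
  · exact Or.inr ⟨by decide, by rw [val_0, val_10]; linarith⟩
  · exact Or.inr ⟨by decide, by rw [val_0, val_11]; linarith⟩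
  · exact Or.inr ⟨by decide, by rw [val_0, val_12]; linarith⟩
  · exact Or.inr ⟨by decide, by rw [val_0, val_13]; linarith⟩
  · exact Or.inr ⟨by decide, by rw [val_0, val_14]; linarith⟩
  · exact Or.inr ⟨by decide, by rw [val_0, val_15]; linarith⟩

lemma mulT_zero : ∀ g, mulT g 0 = g := by decide +kernel

lemma singleton_mem_LS {w : E5} (hw : Near w) (i : Fin 16) : {i} ∈ LS (orb w) := by
  right
  refine ⟨pt i w, ?_⟩
  rw [arg_pt, arg_self hw, Finset.coe_singleton, image_singleton, mulT_zero]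

/-- Every proper face is contained in one of the facets of the family. -/
def Covered (w : E5) : Prop :=
  ∀ v : E5, v ≠ 0 → ∃ S : Finset (Fin 16), IsFac S ∧ Arg (orb w) v ⊆ S

/-- The equation of the cross. -/
def OnCross (x : Fin 5 → ℝ) : Prop :=
  (II x * n2 x + RR x * n1 x) = (RR x * n2 x + II x * n1 x)

lemma isFac_arg {w : E5} (hw : Near w) (hcr : OnCross w) {F : Finset (Fin 16)} (hF : IsFac F) :
    ∃ v, Arg (orb w) v = (F : Set (Fin 16)) := by
  obtain ⟨g, i, rfl⟩ := hF
  have key : ∃ v, Arg (orb w) v = (repF i : Set (Fin 16)) := by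
    fin_cases i
    · exact arg_rep0 hw
    · obtain ⟨v, hv, -⟩ := arg_rep1 hw
      exact ⟨v, hv⟩
    · obtain ⟨v, hv, -⟩ := arg_rep2 hw
      exact ⟨v, hv⟩
    · obtain ⟨v, hv, -⟩ := arg_rep3 hw hcr
      exact ⟨v, hv⟩
  obtain ⟨v, hv⟩ := key
  exact ⟨pt g v, by rw [arg_pt, hv, Finset.coe_image]⟩

lemma univ_notMem_Fam : (univ : Set (Fin 16)) ∉ Fam := by
  rintro ⟨F, hF, h⟩
  have h1 : F = Finset.univ := by
    rw [← Finset.coe_eq_univ]
    exact h
  rcases card_isFac hF with h2 | h2 <;> · rw [h1] at h2; simp at h2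

lemma LS_cross {w : E5} (hw : Near w) (hcr : OnCross w) (hc : Covered w) :
    LS (orb w) = FamLS Fam := by
  apply LS_eq
  · rintro S ⟨F, hF, rfl⟩
    exact isFac_arg hw hcr hF
  · exact univ_notMem_Fam
  · intro v hv
    have hv0 : v ≠ 0 := by
      rintro rfl
      exact hv (arg_zero _)
    obtain ⟨S, hS, hvS⟩ := hc v hv0
    exact ⟨S, ⟨S, hS, rfl⟩, hvS⟩

lemma not_hasCoatom {w : E5} (hw : Near w) (hcr : OnCross w) (hc : Covered w) :
    ¬ HasCoatom {T // T ∈ LS (orb w)} 5 := by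
  rw [hasCoatom_iff _ (singleton_mem_LS hw)]
  rintro ⟨C, hC, hCu, hmax, hn⟩
  rcases hC with rfl | ⟨v, rfl⟩
  · simp at hn
  have hv0 : v ≠ 0 := by
    rintro rfl
    exact hCu (arg_zero _)
  obtain ⟨S, hS, hvS⟩ := hc v hv0
  obtain ⟨u, hu⟩ := isFac_arg hw hcr hS
  rcases hmax S (Or.inr ⟨u, hu.symm⟩) hvS with h | h
  · rw [← h, ncard_coe_finset] at hn
    rcases card_isFac hS with h2 | h2 <;> omega
  · exact univ_notMem_Fam ⟨S, hS, h⟩

/-! ### Off the cross -/

lemma span_aux {w d : E5} (hw : Near w)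
    (h0 : val w d 0 = 0) (h2 : val w d 2 = 0) (h10 : val w d 10 = 0) (h12 : val w d 12 = 0)
    (h : val w d 1 = 0 ∨ val w d 11 = 0) : d = 0 := by
  obtain ⟨hh, hn1, hn2, hR, hI, -, -, -, -⟩ := hw
  rw [val_0] at h0
  rw [val_2] at h2
  rw [val_10] at h10
  rw [val_12] at h12
  rw [val_1, val_11] at h
  obtain ⟨e, he⟩ : ∃ e, e = w 4 * d 4 := ⟨_, rfl⟩
  rw [← he] at h0 h2 h10 h12 h
  have A : w 0 * d 0 + w 1 * d 1 = 0 := by linarith
  have B : w 2 * d 2 + w 3 * d 3 = -e := by linarith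
  have C : -w 1 * d 0 + w 0 * d 1 = -e := by linarith
  have D : w 3 * d 2 - w 2 * d 3 = 0 := by linarith
  have q0 : n1 w * d 0 = w 1 * e := by
    simp only [n1]
    linear_combination w 0 * A - w 1 * C
  have q1 : n1 w * d 1 = -w 0 * e := by
    simp only [n1]
    linear_combination w 1 * A + w 0 * C
  have q2 : n2 w * d 2 = -w 2 * e := by
    simp only [n2]
    linear_combination w 2 * B + w 3 * D
  have q3 : n2 w * d 3 = -w 3 * e := by
    simp only [n2]
    linear_combination w 3 * B - w 2 * D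
  have he0 : e = 0 := by
    rcases h with h | h
    · have key : e * (II w * n2 w + RR w * n1 w + n1 w * n2 w) = 0 := by
        simp only [II, RR]
        linear_combination (-n1 w * n2 w) * h + n2 w * w 2 * q0 + n2 w * w 3 * q1
          + n1 w * w 0 * q2 + n1 w * w 1 * q3
      rcases mul_eq_zero.mp key with h' | h'
      · exact h'
      · have : 0 < II w * n2 w + RR w * n1 w + n1 w * n2 w := by positivity
        exact absurd h' this.ne'
    · have key : e * (RR w * n2 w + II w * n1 w + n1 w * n2 w) = 0 := by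
        simp only [II, RR]
        linear_combination (-n1 w * n2 w) * h - n2 w * w 3 * q0 + n2 w * w 2 * q1
          - n1 w * w 1 * q2 + n1 w * w 0 * q3
      rcases mul_eq_zero.mp key with h' | h'
      · exact h'
      · have : 0 < RR w * n2 w + II w * n1 w + n1 w * n2 w := by positivity
        exact absurd h' this.ne'
  rw [he0] at q0 q1 q2 q3 he
  have d0 : d 0 = 0 := (mul_eq_zero.mp (by rw [q0]; ring)).resolve_left hn1.ne'
  have d1 : d 1 = 0 := (mul_eq_zero.mp (by rw [q1]; ring)).resolve_left hn1.ne'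
  have d2 : d 2 = 0 := (mul_eq_zero.mp (by rw [q2]; ring)).resolve_left hn2.ne'
  have d3 : d 3 = 0 := (mul_eq_zero.mp (by rw [q3]; ring)).resolve_left hn2.ne'
  have d4 : d 4 = 0 := (mul_eq_zero.mp he.symm).resolve_left hh.ne'
  ext k
  fin_cases k
  · exact d0
  · exact d1
  · exact d2
  · exact d3
  · exact d4

lemma val_comb (w u v : E5) (a b : ℝ) (i : Fin 16) :
    val w (a • u - b • v : E5) i = a * val w u i - b * val w v i := by
  simp only [val, Finset.mul_sum, ← Finset.sum_sub_distrib]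
  refine Finset.sum_congr rfl fun c _ => ?_
  simp only [PiLp.sub_apply, PiLp.smul_apply, smul_eq_mul]
  ring

lemma arg_smul_pos {ι : Type*} (q : ι → E5) (v : E5) {c : ℝ} (hc : 0 < c) :
    Arg q (c • v) = Arg q v := by
  ext i
  simp only [Arg, mem_ofPred_eq, real_inner_smul_left]
  exact forall_congr' fun j => mul_le_mul_iff_right₀ hc

lemma coatom_of_span {w v : E5} {C : Finset (Fin 16)} (h0C : 0 ∈ C)
    (hv : Arg (orb w) v = (C : Set (Fin 16))) (hpos : 0 < val w v 0)
    (hspan : ∀ d : E5, (∀ i ∈ C, val w d i = 0) → d = 0) {T : Set (Fin 16)}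
    (hT : T ∈ LS (orb w)) (hCT : (C : Set (Fin 16)) ⊆ T) : T = C ∨ T = univ := by
  rcases hT with rfl | ⟨u, rfl⟩
  · exact absurd (hCT h0C) (notMem_empty _)
  have h0u : (0 : Fin 16) ∈ Arg (orb w) u := hCT h0C
  have h0v : (0 : Fin 16) ∈ Arg (orb w) v := by rw [hv]; exact h0C
  rw [mem_arg_iff] at h0u h0v
  have hu : ∀ i ∈ C, val w u i = val w u 0 := by
    intro i hi
    have h1 : i ∈ Arg (orb w) u := hCT hi
    rw [mem_arg_iff] at h1
    exact le_antisymm (h0u i) (h1 0)
  have hvv : ∀ i ∈ C, val w v i = val w v 0 := by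
    intro i hi
    have h1 : i ∈ Arg (orb w) v := by rw [hv]; exact hi
    rw [mem_arg_iff] at h1
    exact le_antisymm (h0v i) (h1 0)
  have hd : val w v 0 • u - val w u 0 • v = 0 := by
    apply hspan
    intro i hi
    rw [val_comb, hu i hi, hvv i hi]
    ring
  have hm : 0 ≤ val w u 0 := by
    have h1 := h0u 4
    have h2 := h0u 1
    have h3 := h0u 5
    rw [val_4] at h1
    rw [val_1] at h2
    rw [val_5] at h3
    have h4 := val_0 w u
    linarith
  have hueq : u = (val w u 0 / val w v 0) • v := by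
    have h1 : val w v 0 • u = val w u 0 • v := sub_eq_zero.mp hd
    rw [div_eq_inv_mul, mul_smul, ← h1, smul_smul, inv_mul_cancel₀ hpos.ne', one_smul]
  rcases eq_or_lt_of_le hm with h | h
  · right
    rw [hueq, ← h, zero_div, zero_smul, arg_zero]
  · left
    rw [hueq, arg_smul_pos _ _ (div_pos h hpos), hv]

lemma hasCoatom_off {w : E5} (hw : Near w) (hcr : ¬ OnCross w) :
    HasCoatom {T // T ∈ LS (orb w)} 5 := by
  rw [hasCoatom_iff _ (singleton_mem_LS hw)]
  rcases lt_or_gt_of_ne hcr with h | h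
  · obtain ⟨v, hv, hpos⟩ := arg_off2 hw h
    refine ⟨_, Or.inr ⟨v, hv.symm⟩, ?_, ?_, ?_⟩
    · intro h1
      have h2 : (1 : Fin 16) ∈ (({0, 2, 10, 11, 12} : Finset (Fin 16)) : Set (Fin 16)) := by
        rw [h1]
        exact mem_univ _
      rw [Finset.mem_coe] at h2
      revert h2
      decide
    · intro T hT hCT
      refine coatom_of_span (by decide) hv hpos ?_ hT hCT
      intro d hd
      exact span_aux hw (hd 0 (by decide)) (hd 2 (by decide)) (hd 10 (by decide))
        (hd 12 (by decide)) (Or.inr (hd 11 (by decide)))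
    · rw [ncard_coe_finset]
      decide
  · obtain ⟨v, hv, hpos⟩ := arg_off1 hw h
    refine ⟨_, Or.inr ⟨v, hv.symm⟩, ?_, ?_, ?_⟩
    · intro h1
      have h2 : (3 : Fin 16) ∈ (({0, 1, 2, 10, 12} : Finset (Fin 16)) : Set (Fin 16)) := by
        rw [h1]
        exact mem_univ _
      rw [Finset.mem_coe] at h2
      revert h2
      decide
    · intro T hT hCT
      refine coatom_of_span (by decide) hv hpos ?_ hT hCT
      intro d hd
      exact span_aux hw (hd 0 (by decide)) (hd 2 (by decide)) (hd 10 (by decide))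
        (hd 12 (by decide)) (Or.inl (hd 1 (by decide)))
    · rw [ncard_coe_finset]
      decide

end Pool.Agent.Helper78.OrbitPolytope
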